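import Pool.Agent.H74R4.Basic

/-!
# The Banach algebras `F^p(ℤ, X, h)` and `F^p_r(ℤ, X, h)`
-/

open MeasureTheory
open scoped ENNReal

namespace Pool.Agent.H74R4

variable {X : Type*} [TopologicalSpace X] [CompactSpace X]

theorem fullNorm_smul_le (h : X ≃ₜ X) (p : ℝ≥0∞) [Fact (1 ≤ p)] (c : ℂ) (a : Cc X h) :
    fullNorm h p (c • a) ≤ ‖c‖ * fullNorm h p a := by
  refine fullNorm_le h p _ (mul_nonneg (norm_nonneg _) (fullNorm_nonneg h p a)) ?_
  intro Ω _ μ _ r
  rw [r.integ_smul, norm_smul]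
  gcongr
  exact le_fullNorm h p μ r a

theorem redNorm_smul_le (h : X ≃ₜ X) (p : ℝ≥0∞) [Fact (1 ≤ p)] (c : ℂ) (a : Cc X h) :
    redNorm h p (c • a) ≤ ‖c‖ * redNorm h p a := by
  refine redNorm_le h p _ (mul_nonneg (norm_nonneg _) (redNorm_nonneg h p a)) ?_
  intro Ω _ μ _ π₀
  rw [CovPair.integ_smul, norm_smul]
  gcongr
  exact le_redNorm h p μ π₀ a

/-- The algebra `C_c(ℤ, C(X), α)` equipped with the full norm. -/
def CcFull (X : Type*) [TopologicalSpace X] [CompactSpace X] (h : X ≃ₜ X) (p : ℝ≥0∞)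
    [Fact (1 ≤ p)] : Type _ := Cc X h

/-- The algebra `C_c(ℤ, C(X), α)` equipped with the reduced norm. -/
def CcRed (X : Type*) [TopologicalSpace X] [CompactSpace X] (h : X ≃ₜ X) (p : ℝ≥0∞)
    [Fact (1 ≤ p)] : Type _ := Cc X h

variable {h : X ≃ₜ X} {p : ℝ≥0∞} [Fact (1 ≤ p)]

/-- The full norm makes `C_c(ℤ, C(X), α)` a (semi)normed ring. -/
noncomputable instance instFullSem : SeminormedRing (CcFull X h p) :=
  @RingSeminorm.toSeminormedRing (Cc X h) _ (fullSeminorm h p)

/-- The reduced norm makes `C_c(ℤ, C(X), α)` a (semi)normed ring. -/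
noncomputable instance instRedSem : SeminormedRing (CcRed X h p) :=
  @RingSeminorm.toSeminormedRing (Cc X h) _ (redSeminorm h p)

theorem CcFull.norm_def (a : CcFull X h p) : ‖a‖ = fullNorm h p (a : Cc X h) := rfl
theorem CcRed.norm_def (a : CcRed X h p) : ‖a‖ = redNorm h p (a : Cc X h) := rfl

noncomputable instance instFullSpace : NormedSpace ℂ (CcFull X h p) :=
  @NormedSpace.mk ℂ (CcFull X h p) _ _ (instModule : Module ℂ (Cc X h))
    (fun c a => fullNorm_smul_le h p c a)

noncomputable instance instRedSpace : NormedSpace ℂ (CcRed X h p) :=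
  @NormedSpace.mk ℂ (CcRed X h p) _ _ (instModule : Module ℂ (Cc X h))
    (fun c a => redNorm_smul_le h p c a)

/-- The completion of `C_c(ℤ, C(X), α)` in the full norm (form used in the proofs). -/
abbrev FpC (X : Type*) [TopologicalSpace X] [CompactSpace X] (h : X ≃ₜ X) (p : ℝ≥0∞)
    [Fact (1 ≤ p)] : Type _ := UniformSpace.Completion (CcFull X h p)

/-- The completion of `C_c(ℤ, C(X), α)` in the reduced norm (form used in the proofs). -/
abbrev FrpC (X : Type*) [TopologicalSpace X] [CompactSpace X] (h : X ≃ₜ X) (p : ℝ≥0∞)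
    [Fact (1 ≤ p)] : Type _ := UniformSpace.Completion (CcRed X h p)

/-- The full `L^p` crossed product `F^p(ℤ, X, h)`: the completion of `C_c(ℤ, C(X), α)` in the
full norm, a complex Banach algebra. -/
def Fp (X : Type*) [TopologicalSpace X] [CompactSpace X] (h : X ≃ₜ X) (p : ℝ≥0∞)
    [Fact (1 ≤ p)] : Type _ := UniformSpace.Completion (CcFull X h p)

/-- The reduced `L^p` crossed product `F^p_r(ℤ, X, h)`: the completion of `C_c(ℤ, C(X), α)` in
the reduced norm, a complex Banach algebra. -/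
def Frp (X : Type*) [TopologicalSpace X] [CompactSpace X] (h : X ≃ₜ X) (p : ℝ≥0∞)
    [Fact (1 ≤ p)] : Type _ := UniformSpace.Completion (CcRed X h p)

noncomputable instance instFpRing : NormedRing (Fp X h p) :=
  UniformSpace.Completion.instNormedRing (CcFull X h p)

noncomputable instance instFrpRing : NormedRing (Frp X h p) :=
  UniformSpace.Completion.instNormedRing (CcRed X h p)

noncomputable instance instFpModule : Module ℂ (Fp X h p) :=
  (inferInstance : Module ℂ (FpC X h p))

noncomputable instance instFrpModule : Module ℂ (Frp X h p) :=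
  (inferInstance : Module ℂ (FrpC X h p))

instance : CompleteSpace (Fp X h p) := (inferInstance : CompleteSpace (FpC X h p))

instance : CompleteSpace (Frp X h p) := (inferInstance : CompleteSpace (FrpC X h p))

theorem Fp.norm_smul_le (c : ℂ) (a : Fp X h p) : ‖c • a‖ ≤ ‖c‖ * ‖a‖ :=
  _root_.norm_smul_le c (show FpC X h p from a)

theorem Frp.norm_smul_le (c : ℂ) (a : Frp X h p) : ‖c • a‖ ≤ ‖c‖ * ‖a‖ :=
  _root_.norm_smul_le c (show FrpC X h p from a)

end Pool.Agent.H74R4
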