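import Pool.Agent.H74R4.OldRep

/-!
# The integrated form and the norms
-/

open MeasureTheory
open scoped ENNReal

namespace Pool.Agent.H74R4

section Norms

variable {X : Type*} [TopologicalSpace X] [CompactSpace X]
variable (h : X ≃ₜ X) (p : ℝ≥0∞) [Fact (1 ≤ p)]

theorem fullSet_bdd (a : Cc X h) : BddAbove (fullSet h p a) := by
  refine ⟨a.toF.sum fun _ f => ‖f‖, ?_⟩
  rintro t ⟨Ω, _, μ, _, r, rfl⟩
  exact r.norm_integ_le a

theorem redSet_bdd (a : Cc X h) : BddAbove (redSet h p a) := by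
  refine ⟨a.toF.sum fun _ f => ‖f‖, ?_⟩
  rintro t ⟨Ω, _, μ, _, π₀, rfl⟩
  exact (regularRep h p π₀).norm_integ_le a

theorem fullNorm_nonneg (a : Cc X h) : 0 ≤ fullNorm h p a :=
  Real.sSup_nonneg (by rintro t ⟨Ω, _, μ, _, r, rfl⟩; exact norm_nonneg _)

theorem redNorm_nonneg (a : Cc X h) : 0 ≤ redNorm h p a :=
  Real.sSup_nonneg (by rintro t ⟨Ω, _, μ, _, π₀, rfl⟩; exact norm_nonneg _)

theorem le_fullNorm {Ω : Type} [MeasurableSpace Ω] (μ : Measure Ω) [SigmaFinite μ]
    (r : CovPair X h (LL p μ)) (a : Cc X h) : ‖r.integ a‖ ≤ fullNorm h p a :=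
  le_csSup (fullSet_bdd h p a) ⟨Ω, _, μ, inferInstance, r, rfl⟩

theorem le_redNorm {Ω : Type} [MeasurableSpace Ω] (μ : Measure Ω) [SigmaFinite μ]
    (π₀ : CRep X (LL p μ)) (a : Cc X h) : ‖(regularRep h p π₀).integ a‖ ≤ redNorm h p a :=
  le_csSup (redSet_bdd h p a) ⟨Ω, _, μ, inferInstance, π₀, rfl⟩

theorem fullNorm_le (a : Cc X h) {C : ℝ} (hC : 0 ≤ C)
    (H : ∀ (Ω : Type) [MeasurableSpace Ω] (μ : Measure Ω) [SigmaFinite μ]
      (r : CovPair X h (LL p μ)), ‖r.integ a‖ ≤ C) : fullNorm h p a ≤ C :=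
  Real.sSup_le (by rintro t ⟨Ω, _, μ, _, r, rfl⟩; exact H Ω μ r) hC

theorem redNorm_le (a : Cc X h) {C : ℝ} (hC : 0 ≤ C)
    (H : ∀ (Ω : Type) [MeasurableSpace Ω] (μ : Measure Ω) [SigmaFinite μ]
      (π₀ : CRep X (LL p μ)), ‖(regularRep h p π₀).integ a‖ ≤ C) : redNorm h p a ≤ C :=
  Real.sSup_le (by rintro t ⟨Ω, _, μ, _, π₀, rfl⟩; exact H Ω μ π₀) hC

/-- The full norm as a ring seminorm. -/
noncomputable def fullSeminorm : RingSeminorm (Cc X h) where
  toFun := fullNorm h p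
  map_zero' := by
    refine le_antisymm (fullNorm_le h p 0 le_rfl ?_) (fullNorm_nonneg h p 0)
    intro Ω _ μ _ r
    rw [r.integ_zero, norm_zero]
  add_le' a b := by
    refine fullNorm_le h p _ (add_nonneg (fullNorm_nonneg h p a) (fullNorm_nonneg h p b)) ?_
    intro Ω _ μ _ r
    rw [r.integ_add]
    exact (norm_add_le _ _).trans (add_le_add (le_fullNorm h p μ r a) (le_fullNorm h p μ r b))
  neg' a := by
    unfold fullNorm fullSet
    simp only [CovPair.integ_neg, norm_neg]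
  mul_le' a b := by
    refine fullNorm_le h p _ (mul_nonneg (fullNorm_nonneg h p a) (fullNorm_nonneg h p b)) ?_
    intro Ω _ μ _ r
    exact (r.norm_integ_mul _ _).trans (mul_le_mul (le_fullNorm h p μ r a) (le_fullNorm h p μ r b)
      (norm_nonneg _) (fullNorm_nonneg h p a))

/-- The reduced norm as a ring seminorm. -/
noncomputable def redSeminorm : RingSeminorm (Cc X h) where
  toFun := redNorm h p
  map_zero' := by
    refine le_antisymm (redNorm_le h p 0 le_rfl ?_) (redNorm_nonneg h p 0)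
    intro Ω _ μ _ π₀
    rw [CovPair.integ_zero, norm_zero]
  add_le' a b := by
    refine redNorm_le h p _ (add_nonneg (redNorm_nonneg h p a) (redNorm_nonneg h p b)) ?_
    intro Ω _ μ _ π₀
    rw [CovPair.integ_add]
    exact (norm_add_le _ _).trans
      (add_le_add (le_redNorm h p μ π₀ a) (le_redNorm h p μ π₀ b))
  neg' a := by
    unfold redNorm redSet
    simp only [CovPair.integ_neg, norm_neg]
  mul_le' a b := by
    refine redNorm_le h p _ (mul_nonneg (redNorm_nonneg h p a) (redNorm_nonneg h p b)) ?_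
    intro Ω _ μ _ π₀
    exact (CovPair.norm_integ_mul _ _ _).trans (mul_le_mul (le_redNorm h p μ π₀ a)
      (le_redNorm h p μ π₀ b) (norm_nonneg _) (redNorm_nonneg h p a))

end Norms

end Pool.Agent.H74R4
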