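import Pool.Agent.H74R4.OldRep

/-!
# The regular representation, in the form used in the proofs
-/

open MeasureTheory
open scoped ENNReal

namespace Pool.Agent.H74R4

section Lp

variable {E : Type*} [NormedAddCommGroup E] [NormedSpace ℂ E] {p : ℝ≥0∞}

theorem memlp_comp_equiv {ι : Type*} [Fact (1 ≤ p)] (e : ι ≃ ι) (f : lp (fun _ : ι => E) p) :
    Memℓp (fun n => f (e n)) p := by
  have hf := lp.memℓp f
  have hp1 : 1 ≤ p := Fact.out
  obtain (rfl | rfl | hp) := p.trichotomy
  · simp at hp1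
  · rw [memℓp_infty_iff] at hf ⊢
    refine hf.mono ?_
    rintro _ ⟨n, rfl⟩
    exact ⟨e n, rfl⟩
  · rw [memℓp_gen_iff hp] at hf ⊢
    exact hf.comp_injective e.injective

/-- Reindexing along a bijection. -/
noncomputable def reindex {ι : Type*} [Fact (1 ≤ p)] (e : ι ≃ ι) (f : lp (fun _ : ι => E) p) :
    lp (fun _ : ι => E) p := ⟨fun n => f (e n), memlp_comp_equiv e f⟩

@[simp] theorem reindex_apply {ι : Type*} [Fact (1 ≤ p)] (e : ι ≃ ι)
    (f : lp (fun _ : ι => E) p) (n : ι) : reindex e f n = f (e n) := rfl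

theorem norm_reindex {ι : Type*} [Fact (1 ≤ p)] (e : ι ≃ ι) (f : lp (fun _ : ι => E) p) :
    ‖reindex e f‖ = ‖f‖ := by
  have hp1 : 1 ≤ p := Fact.out
  obtain (rfl | rfl | hp) := p.trichotomy
  · simp at hp1
  · rw [lp.norm_eq_ciSup, lp.norm_eq_ciSup]
    exact e.iSup_comp (g := fun n => ‖f n‖)
  · rw [lp.norm_eq_tsum_rpow hp, lp.norm_eq_tsum_rpow hp]
    congr 1
    exact e.tsum_eq (fun n => ‖f n‖ ^ p.toReal)

/-- The bilateral shift `(vξ)(n) = ξ(n-1)` on `ℓ^p(ℤ; E)`. -/
noncomputable def shift (E : Type*) [NormedAddCommGroup E] [NormedSpace ℂ E] (p : ℝ≥0∞)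
    [Fact (1 ≤ p)] : lp (fun _ : ℤ => E) p ≃ₗᵢ[ℂ] lp (fun _ : ℤ => E) p where
  toFun := reindex (Equiv.subRight (1 : ℤ))
  invFun := reindex (Equiv.addRight (1 : ℤ))
  left_inv f := by ext n; simp
  right_inv f := by ext n; simp
  map_add' f g := by ext n; rfl
  map_smul' c f := by ext n; rfl
  norm_map' f := norm_reindex _ f

@[simp] theorem shift_apply [Fact (1 ≤ p)] (f : lp (fun _ : ℤ => E) p) (n : ℤ) :
    shift E p f n = f (n - 1) := rfl

/-- The diagonal operator with uniformly bounded entries. -/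
theorem diag_mem [Fact (1 ≤ p)] {C : ℝ} (T : ℤ → E →L[ℂ] E) (hT : ∀ n, ‖T n‖ ≤ C)
    (f : lp (fun _ : ℤ => E) p) : Memℓp (fun n => T n (f n)) p := by
  refine Memℓp.mono' (lp.memℓp ((C : ℂ) • f)) fun n => ?_
  rw [lp.coeFn_smul, Pi.smul_apply, norm_smul, Complex.norm_real, Real.norm_eq_abs]
  refine ((T n).le_opNorm _).trans ?_
  gcongr
  exact (hT n).trans (le_abs_self C)

/-- The diagonal operator `ξ ↦ (n ↦ T n (ξ n))`. -/
noncomputable def diag [Fact (1 ≤ p)] (C : ℝ) (T : ℤ → E →L[ℂ] E) (hT : ∀ n, ‖T n‖ ≤ C) :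
    lp (fun _ : ℤ => E) p →L[ℂ] lp (fun _ : ℤ => E) p :=
  LinearMap.mkContinuous
    { toFun := fun f => ⟨fun n => T n (f n), diag_mem T hT f⟩
      map_add' := fun f g => by
        ext n
        change T n ((f + g : lp (fun _ : ℤ => E) p) n) = T n (f n) + T n (g n)
        rw [lp.coeFn_add, Pi.add_apply, map_add]
      map_smul' := fun c f => by
        ext n
        change T n ((c • f : lp (fun _ : ℤ => E) p) n) = c • T n (f n)
        rw [lp.coeFn_smul, Pi.smul_apply, map_smul] } C (fun f => by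
        have hC : 0 ≤ C := (norm_nonneg _).trans (hT 0)
        have hp : p ≠ 0 := by
          have : 1 ≤ p := Fact.out
          exact (lt_of_lt_of_le one_pos this).ne'
        have h1 : ‖(⟨fun n => T n (f n), diag_mem T hT f⟩ : lp (fun _ : ℤ => E) p)‖
            ≤ ‖(C : ℂ) • f‖ := by
          refine lp.norm_mono hp fun n => ?_
          rw [lp.coeFn_smul, Pi.smul_apply, norm_smul, Complex.norm_real, Real.norm_eq_abs,
            abs_of_nonneg hC]
          exact ((T n).le_opNorm _).trans (by gcongr; exact hT n)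
        refine h1.trans ?_
        rw [norm_smul, Complex.norm_real, Real.norm_eq_abs, abs_of_nonneg hC])

@[simp] theorem diag_apply [Fact (1 ≤ p)] (C : ℝ) (T : ℤ → E →L[ℂ] E) (hT : ∀ n, ‖T n‖ ≤ C)
    (f : lp (fun _ : ℤ => E) p) (n : ℤ) : diag C T hT f n = T n (f n) := rfl

theorem norm_diag_le [Fact (1 ≤ p)] (C : ℝ) (T : ℤ → E →L[ℂ] E) (hT : ∀ n, ‖T n‖ ≤ C) :
    ‖(diag C T hT : lp (fun _ : ℤ => E) p →L[ℂ] lp (fun _ : ℤ => E) p)‖ ≤ C :=
  LinearMap.mkContinuous_norm_le _ ((norm_nonneg _).trans (hT 0)) _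

end Lp

section Reg

variable {X : Type*} [TopologicalSpace X] [CompactSpace X]

/-- The regular covariant representation on `ℓ^p(ℤ; E)` associated with a contractive
(unital) representation `π₀` of `C(X)` on `E`:
`(π(f)ξ)(n) = π₀(α^{-n}(f)) ξ(n)` and `(vξ)(n) = ξ(n-1)`. -/
noncomputable def regular (h : X ≃ₜ X) (p : ℝ≥0∞) [Fact (1 ≤ p)]
    {E : Type*} [NormedAddCommGroup E] [NormedSpace ℂ E]
    (π₀ : C(X, ℂ) →ₐ[ℂ] (E →L[ℂ] E)) (hπ : ∀ f, ‖π₀ f‖ ≤ ‖f‖) :
    CovRep X h (lp (fun _ : ℤ => E) p) where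
  π :=
    { toFun := fun f => diag ‖f‖ (fun n => π₀ (act h (-n) f))
        (fun n => (hπ _).trans (norm_act_le h _ f))
      map_one' := by
        ext ξ n
        simp
      map_mul' := fun f g => by
        ext ξ n
        simp
      map_zero' := by
        ext ξ n
        simp
      map_add' := fun f g => by
        ext ξ n
        simp
      commutes' := fun c => by
        ext ξ n
        simp only [diag_apply, Algebra.algebraMap_eq_smul_one, act_smul, act_one, map_smul, map_one]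
        rfl }
  v := shift E p
  contractive f := norm_diag_le ‖f‖ (fun n => π₀ (act h (-n) f))
    (fun n => (hπ _).trans (norm_act_le h _ f))
  cov f ξ := by
    ext n
    simp only [shift_apply, AlgHom.coe_mk, RingHom.coe_mk, MonoidHom.coe_mk, OneHom.coe_mk,
      diag_apply, act_act]
    rw [show -(n - 1) = -n + 1 by ring]

end Reg

end Pool.Agent.H74R4
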