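import Pool.Agent.H74R4.Alg
import Pool.Agent.H74R4.RegOld

/-!
# The norms in terms of the Mathlib spaces
-/

open MeasureTheory
open scoped ENNReal

namespace Pool.Agent.H74R4

variable {X : Type*} [TopologicalSpace X] [CompactSpace X]
variable (h : X ≃ₜ X) (p : ℝ≥0∞) [Fact (1 ≤ p)]

theorem le_fullNorm' {Ω : Type} [MeasurableSpace Ω] (μ : Measure Ω) [SigmaFinite μ]
    (r : CovRep X h (Lp ℂ p μ)) (a : Cc X h) : ‖r.integ a‖ ≤ fullNorm h p a :=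
  le_fullNorm h p μ r.toPair a

theorem fullNorm_le' (a : Cc X h) {C : ℝ} (hC : 0 ≤ C)
    (H : ∀ (Ω : Type) [MeasurableSpace Ω] (μ : Measure Ω) [SigmaFinite μ]
      (r : CovRep X h (Lp ℂ p μ)), ‖r.integ a‖ ≤ C) : fullNorm h p a ≤ C :=
  fullNorm_le h p a hC (fun Ω _ μ _ r => H Ω μ r.toRep)

theorem le_redNorm' {Ω : Type} [MeasurableSpace Ω] (μ : Measure Ω) [SigmaFinite μ]
    (π₀ : C(X, ℂ) →ₐ[ℂ] (Lp ℂ p μ →L[ℂ] Lp ℂ p μ)) (hπ : ∀ f, ‖π₀ f‖ ≤ ‖f‖) (a : Cc X h) :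
    ‖(regular h p π₀ hπ).integ a‖ ≤ redNorm h p a :=
  le_redNorm h p μ (CRep.ofAlg π₀ hπ) a

end Pool.Agent.H74R4
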