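import Mathlib

/-!
# L^p crossed products of a homeomorphism

`Cc X h` is the algebra of finitely supported functions from the integers to `C(X, ℂ)` with the
twisted convolution product, `CovRep` a contractive covariant representation, `fullNorm` and
`redNorm` the two norms of the problem, `Fp` and `Frp` the completions.
-/

open MeasureTheory
open scoped ENNReal

namespace Pool.Agent.H74R4

section Alg

variable {X : Type*} [TopologicalSpace X]

/-- `act h k f = f ∘ h^(-k)`: the `k`-th power of the automorphism `f ↦ f ∘ h⁻¹`. -/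
noncomputable def act (h : X ≃ₜ X) (k : ℤ) (f : C(X, ℂ)) : C(X, ℂ) :=
  f.comp ((h ^ (-k) : X ≃ₜ X) : C(X, X))

@[simp] theorem act_apply (h : X ≃ₜ X) (k : ℤ) (f : C(X, ℂ)) (x : X) :
    act h k f x = f ((h ^ (-k) : X ≃ₜ X) x) := rfl

@[simp] theorem act_zero' (h : X ≃ₜ X) (f : C(X, ℂ)) : act h 0 f = f := by
  ext x; simp [act]

theorem act_act (h : X ≃ₜ X) (k l : ℤ) (f : C(X, ℂ)) :
    act h k (act h l f) = act h (k + l) f := by
  ext x
  simp only [act_apply]
  rw [show -(k + l) = -l + -k by ring, zpow_add]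
  rfl

@[simp] theorem act_add (h : X ≃ₜ X) (k : ℤ) (f g : C(X, ℂ)) :
    act h k (f + g) = act h k f + act h k g := rfl

@[simp] theorem act_mul (h : X ≃ₜ X) (k : ℤ) (f g : C(X, ℂ)) :
    act h k (f * g) = act h k f * act h k g := rfl

@[simp] theorem act_zero (h : X ≃ₜ X) (k : ℤ) : act h k (0 : C(X, ℂ)) = 0 := rfl

@[simp] theorem act_one (h : X ≃ₜ X) (k : ℤ) : act h k (1 : C(X, ℂ)) = 1 := rfl

@[simp] theorem act_smul (h : X ≃ₜ X) (k : ℤ) (c : ℂ) (f : C(X, ℂ)) :
    act h k (c • f) = c • act h k f := rfl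

/-- The space of finitely supported functions from the integers to `C(X, ℂ)`. -/
def Cc (X : Type*) [TopologicalSpace X] (_h : X ≃ₜ X) : Type _ := ℤ →₀ C(X, ℂ)

variable {h : X ≃ₜ X}

noncomputable instance instAddCommGroup : AddCommGroup (Cc X h) := Finsupp.instAddCommGroup
noncomputable instance instModule : Module ℂ (Cc X h) := Finsupp.module ℤ C(X, ℂ)

/-- The underlying finitely supported function. -/
def Cc.toF (a : Cc X h) : ℤ →₀ C(X, ℂ) := a

/-- The element `f v^n`. -/
noncomputable def Cc.single (h : X ≃ₜ X) (n : ℤ) (f : C(X, ℂ)) : Cc X h :=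
  (Finsupp.single n f : ℤ →₀ C(X, ℂ))

/-- The coefficient `a(n)`. -/
noncomputable def Cc.coeff (a : Cc X h) (n : ℤ) : C(X, ℂ) := a.toF n

/-- The twisted convolution product `(ab)(n) = ∑_k a(k) α^k(b(n-k))`
(see `Cc.mul_coeff`). -/
noncomputable def Cc.mul (a b : Cc X h) : Cc X h :=
  a.toF.sum fun k f =>
    b.toF.sum fun m g => Cc.single h (k + m) (f * act h k g)

noncomputable instance : Mul (Cc X h) := ⟨Cc.mul⟩
noncomputable instance : One (Cc X h) := ⟨Cc.single h 0 1⟩

theorem Cc.one_def : (1 : Cc X h) = Cc.single h 0 1 := rfl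

theorem Cc.single_add (n : ℤ) (f g : C(X, ℂ)) :
    Cc.single h n (f + g) = Cc.single h n f + Cc.single h n g :=
  Finsupp.single_add n f g

theorem Cc.single_zero (n : ℤ) : Cc.single h n (0 : C(X, ℂ)) = 0 :=
  Finsupp.single_zero n

theorem Cc.smul_single (c : ℂ) (n : ℤ) (f : C(X, ℂ)) :
    c • Cc.single h n f = Cc.single h n (c • f) :=
  Finsupp.smul_single c n f

theorem Cc.induction {P : Cc X h → Prop} (a : Cc X h) (h0 : P 0)
    (hadd : ∀ a b, P a → P b → P (a + b)) (hs : ∀ n f, P (Cc.single h n f)) : P a :=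
  Finsupp.induction_linear (motive := P) a h0 hadd hs

theorem Cc.single_mul_single (k m : ℤ) (f g : C(X, ℂ)) :
    Cc.single h k f * Cc.single h m g = Cc.single h (k + m) (f * act h k g) := by
  change Cc.mul _ _ = _
  unfold Cc.mul
  have e2 : (Cc.single h m g).toF.sum (fun m g => Cc.single h (k + m) (f * act h k g))
      = Cc.single h (k + m) (f * act h k g) :=
    Finsupp.sum_single_index (h := fun m g => Cc.single h (k + m) (f * act h k g))
      (by simp [Cc.single_zero])
  refine (Finsupp.sum_single_index (h := fun k f => (Cc.single h m g).toF.sum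
    fun m g => Cc.single h (k + m) (f * act h k g)) ?_).trans e2
  simp [Finsupp.sum, Cc.single_zero]

theorem Cc.add_mul' (a b c : Cc X h) : (a + b) * c = a * c + b * c := by
  change Cc.mul _ _ = Cc.mul _ _ + Cc.mul _ _
  unfold Cc.mul
  refine Finsupp.sum_add_index' (h := fun k f =>
    c.toF.sum fun m g => Cc.single h (k + m) (f * act h k g)) ?_ ?_
  · intro k
    simp [Cc.single_zero, Finsupp.sum]
  · intro k f g
    simp only [Finsupp.sum, add_mul, Cc.single_add, Finset.sum_add_distrib]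

theorem Cc.mul_add' (a b c : Cc X h) : a * (b + c) = a * b + a * c := by
  change Cc.mul _ _ = Cc.mul _ _ + Cc.mul _ _
  unfold Cc.mul
  rw [← Finsupp.sum_add]
  refine Finsupp.sum_congr fun k _ => ?_
  refine Finsupp.sum_add_index' (h := fun m g =>
    Cc.single h (k + m) (a.toF k * act h k g)) ?_ ?_
  · intro m
    simp [Cc.single_zero]
  · intro m f g
    simp only [act_add, mul_add, Cc.single_add]

theorem Cc.zero_mul' (a : Cc X h) : 0 * a = 0 := by
  have := Cc.add_mul' (0 : Cc X h) 0 a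
  simpa using this

theorem Cc.mul_zero' (a : Cc X h) : a * 0 = 0 := by
  have := Cc.mul_add' a (0 : Cc X h) 0
  simpa using this

theorem Cc.mul_assoc' (a b c : Cc X h) : a * b * c = a * (b * c) := by
  induction a using Cc.induction with
  | h0 => simp only [Cc.zero_mul']
  | hadd a a' ha ha' => simp only [Cc.add_mul', ha, ha']
  | hs k f =>
    induction b using Cc.induction with
    | h0 => simp only [Cc.zero_mul', Cc.mul_zero']
    | hadd b b' hb hb' => simp only [Cc.add_mul', Cc.mul_add', hb, hb']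
    | hs m g =>
      induction c using Cc.induction with
      | h0 => simp only [Cc.mul_zero']
      | hadd c c' hc hc' => simp only [Cc.mul_add', hc, hc']
      | hs l e =>
        simp only [Cc.single_mul_single, act_mul, act_act, add_assoc, mul_assoc]

theorem Cc.one_mul' (a : Cc X h) : 1 * a = a := by
  induction a using Cc.induction with
  | h0 => simp only [Cc.mul_zero']
  | hadd a a' ha ha' => simp only [Cc.mul_add', ha, ha']
  | hs k f => simp [Cc.one_def, Cc.single_mul_single]

theorem Cc.mul_one' (a : Cc X h) : a * 1 = a := by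
  induction a using Cc.induction with
  | h0 => simp only [Cc.zero_mul']
  | hadd a a' ha ha' => simp only [Cc.add_mul', ha, ha']
  | hs k f => simp [Cc.one_def, Cc.single_mul_single]

noncomputable instance : Ring (Cc X h) :=
  { (inferInstance : AddCommGroup (Cc X h)) with
    mul := (· * ·)
    one := 1
    left_distrib := Cc.mul_add'
    right_distrib := Cc.add_mul'
    zero_mul := Cc.zero_mul'
    mul_zero := Cc.mul_zero'
    mul_assoc := Cc.mul_assoc'
    one_mul := Cc.one_mul'
    mul_one := Cc.mul_one' }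

theorem Cc.smul_mul' (c : ℂ) (a b : Cc X h) : (c • a) * b = c • (a * b) := by
  induction a using Cc.induction with
  | h0 => simp
  | hadd a a' ha ha' => simp only [smul_add, add_mul, ha, ha']
  | hs k f =>
    induction b using Cc.induction with
    | h0 => simp
    | hadd b b' hb hb' => simp only [smul_add, mul_add, hb, hb']
    | hs m g =>
      simp only [Cc.smul_single, Cc.single_mul_single, smul_mul_assoc]

theorem Cc.mul_smul' (c : ℂ) (a b : Cc X h) : a * (c • b) = c • (a * b) := by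
  induction a using Cc.induction with
  | h0 => simp
  | hadd a a' ha ha' => simp only [smul_add, add_mul, ha, ha']
  | hs k f =>
    induction b using Cc.induction with
    | h0 => simp
    | hadd b b' hb hb' => simp only [smul_add, mul_add, hb, hb']
    | hs m g =>
      simp only [Cc.smul_single, Cc.single_mul_single, act_smul, mul_smul_comm]

noncomputable instance : Algebra ℂ (Cc X h) := Algebra.ofModule Cc.smul_mul' Cc.mul_smul'

/-- The product is the twisted convolution of the problem. -/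
theorem Cc.mul_coeff (a b : Cc X h) (n : ℤ) :
    (a * b).coeff n = a.toF.sum
      fun k f => f * act h k (b.coeff (n - k)) := by
  induction b using Cc.induction with
  | h0 =>
    rw [mul_zero]
    have : ∀ m, (0 : Cc X h).coeff m = 0 := fun m => rfl
    simp [this, Finsupp.sum]
  | hadd b b' hb hb' =>
    have hc : ∀ (u w : Cc X h) m, (u + w).coeff m = u.coeff m + w.coeff m := fun u w m => rfl
    rw [mul_add, hc, hb, hb']
    simp only [hc, act_add, mul_add, Finsupp.sum, Finset.sum_add_distrib]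
  | hs m g =>
    induction a using Cc.induction with
    | h0 =>
      rw [zero_mul]
      exact (Finsupp.sum_zero_index (h := fun k f => f * act h k
        ((Cc.single h m g).coeff (n - k)))).symm
    | hadd a a' ha ha' =>
      have hc : ∀ (u w : Cc X h) m, (u + w).coeff m = u.coeff m + w.coeff m := fun u w m => rfl
      rw [add_mul, hc, ha, ha']
      refine (Finsupp.sum_add_index' (h := fun k f => f * act h k
        ((Cc.single h m g).coeff (n - k))) ?_ ?_).symm
      · intro k; simp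
      · intro k u w; simp [add_mul]
    | hs k f =>
      rw [Cc.single_mul_single]
      have e1 : (Cc.single h k f).toF.sum
          (fun k f => f * act h k ((Cc.single h m g).coeff (n - k)))
          = f * act h k ((Cc.single h m g).coeff (n - k)) :=
        Finsupp.sum_single_index (h := fun k f => f * act h k
          ((Cc.single h m g).coeff (n - k))) (by simp)
      rw [e1]
      change (Finsupp.single (k + m) (f * act h k g)) n
        = f * act h k ((Finsupp.single m g : ℤ →₀ C(X, ℂ)) (n - k))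
      by_cases hn : k + m = n
      · subst hn
        simp
      · rw [Finsupp.single_eq_of_ne (Ne.symm hn), Finsupp.single_eq_of_ne (by omega)]
        simp

end Alg

section Rep

variable {X : Type*} [TopologicalSpace X] [CompactSpace X]

/-- A contractive nondegenerate representation of `C(X)` on a Banach space `E`: a contractive
algebra homomorphism from `C(X)` to the bounded operators on `E` sending `1` to the identity. -/
structure CRep (X : Type*) [TopologicalSpace X] [CompactSpace X]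
    (E : Type*) [NormedAddCommGroup E] [NormedSpace ℂ E] where
  /-- the operator `π(f)` -/
  op : C(X, ℂ) → (E →L[ℂ] E)
  op_one : op 1 = ContinuousLinearMap.id ℂ E
  op_mul : ∀ f g, op (f * g) = (op f).comp (op g)
  op_add : ∀ f g, op (f + g) = op f + op g
  op_smul : ∀ (c : ℂ) (f : C(X, ℂ)), op (c • f) = c • op f
  norm_op : ∀ f, ‖op f‖ ≤ ‖f‖

/-- A contractive covariant representation of `(X, h)` on a Banach space `E`: a contractive
nondegenerate representation `π` of `C(X)` and an invertible isometry `v` with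
`v π(f) v⁻¹ = π(f ∘ h⁻¹)`. -/
structure CovPair (X : Type*) [TopologicalSpace X] [CompactSpace X] (h : X ≃ₜ X)
    (E : Type*) [NormedAddCommGroup E] [NormedSpace ℂ E] where
  π : CRep X E
  v : E ≃ₗᵢ[ℂ] E
  cov : ∀ f ξ, v (π.op f ξ) = π.op (act h 1 f) (v ξ)

variable {h : X ≃ₜ X} {E : Type*} [NormedAddCommGroup E] [NormedSpace ℂ E]

/-- The operator of the `n`-th power of `v`. -/
noncomputable def vpow (v : E ≃ₗᵢ[ℂ] E) (n : ℤ) : E →L[ℂ] E :=
  ((v ^ n : E ≃ₗᵢ[ℂ] E).toContinuousLinearEquiv : E →L[ℂ] E)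

/-- The integrated form `a ↦ ∑_n π(a(n)) v^n`. -/
noncomputable def CovPair.integ (r : CovPair X h E) (a : Cc X h) : E →L[ℂ] E :=
  a.toF.sum fun n f => (r.π.op f).comp (vpow r.v n)

end Rep

section Spaces

/-- The space `ℓ^p(ℤ, E)`. -/
def Ell (E : Type*) [NormedAddCommGroup E] (p : ℝ≥0∞) : Type _ := lp (fun _ : ℤ => E) p

/-- The space `L^p(Ω, μ)`. -/
def LL (p : ℝ≥0∞) {Ω : Type*} [MeasurableSpace Ω] (μ : Measure Ω) : Type _ := Lp ℂ p μ

variable {E : Type*} [NormedAddCommGroup E] {p : ℝ≥0∞} [Fact (1 ≤ p)]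

noncomputable instance instEll : NormedAddCommGroup (Ell E p) := lp.normedAddCommGroup

noncomputable instance instEllSpace [NormedSpace ℂ E] : NormedSpace ℂ (Ell E p) :=
  lp.instNormedSpace

noncomputable instance instLL {Ω : Type*} [MeasurableSpace Ω] (μ : Measure Ω) :
    NormedAddCommGroup (LL p μ) := Lp.instNormedAddCommGroup

noncomputable instance instLLSpace {Ω : Type*} [MeasurableSpace Ω] (μ : Measure Ω) :
    NormedSpace ℂ (LL p μ) := Lp.instNormedSpace

omit [Fact (1 ≤ p)] in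
/-- The coordinate `ξ(n)`. -/
def Ell.val (ξ : Ell E p) : ℤ → E := Subtype.val ξ

/-- The element of `ℓ^p(ℤ, E)` with given coordinates. -/
def Ell.mk (f : ℤ → E) (hf : Memℓp f p) : Ell E p := ⟨f, hf⟩

end Spaces

section Reg

variable {X : Type*} [TopologicalSpace X] [CompactSpace X]

theorem norm_act_le (h : X ≃ₜ X) (k : ℤ) (f : C(X, ℂ)) : ‖act h k f‖ ≤ ‖f‖ :=
  (ContinuousMap.norm_le _ (norm_nonneg _)).2 fun _ => f.norm_coe_le_norm _


variable {E : Type*} [NormedAddCommGroup E]

theorem shift_mem {p : ℝ≥0∞} (k : ℤ) (ξ : Ell E p) : Memℓp (fun n => ξ.val (n - k)) p := by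
  have hf := lp.memℓp (show lp (fun _ : ℤ => E) p from ξ)
  obtain (rfl | rfl | hp) := p.trichotomy
  · rw [memℓp_zero_iff] at hf ⊢
    exact hf.preimage (f := fun n : ℤ => n - k) (Equiv.subRight k).injective.injOn
  · rw [memℓp_infty_iff] at hf ⊢
    refine hf.mono ?_
    rintro _ ⟨n, rfl⟩
    exact ⟨n - k, rfl⟩
  · rw [memℓp_gen_iff hp] at hf ⊢
    exact hf.comp_injective (Equiv.subRight k).injective

theorem norm_shift {p : ℝ≥0∞} [Fact (1 ≤ p)] (k : ℤ) (ξ : Ell E p) :
    ‖Ell.mk (fun n => ξ.val (n - k)) (shift_mem k ξ)‖ = ‖ξ‖ := by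
  have hp1 : 1 ≤ p := Fact.out
  change ‖(⟨fun n => ξ.val (n - k), shift_mem k ξ⟩ : lp (fun _ : ℤ => E) p)‖
    = ‖(show lp (fun _ : ℤ => E) p from ξ)‖
  obtain (rfl | rfl | hp) := p.trichotomy
  · simp at hp1
  · rw [lp.norm_eq_ciSup, lp.norm_eq_ciSup]
    exact (Equiv.subRight k).iSup_comp (g := fun n => ‖ξ.val n‖)
  · rw [lp.norm_eq_tsum_rpow hp, lp.norm_eq_tsum_rpow hp]
    congr 1
    exact (Equiv.subRight k).tsum_eq (fun n => ‖ξ.val n‖ ^ p.toReal)

variable [NormedSpace ℂ E]

/-- The bilateral shift `(vξ)(n) = ξ(n-1)` on `ℓ^p(ℤ, E)`. -/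
noncomputable def shiftZ (E : Type*) [NormedAddCommGroup E] [NormedSpace ℂ E] (p : ℝ≥0∞)
    [Fact (1 ≤ p)] : Ell E p ≃ₗᵢ[ℂ] Ell E p where
  toFun ξ := Ell.mk (fun n => ξ.val (n - 1)) (shift_mem 1 ξ)
  invFun ξ := Ell.mk (fun n => ξ.val (n - (-1))) (shift_mem (-1) ξ)
  left_inv ξ := Subtype.ext (funext fun n => by
    change ξ.val (n - (-1) - 1) = ξ.val n
    rw [show n - (-1) - 1 = n by ring])
  right_inv ξ := Subtype.ext (funext fun n => by
    change ξ.val (n - 1 - (-1)) = ξ.val n
    rw [show n - 1 - (-1) = n by ring])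
  map_add' ξ η := rfl
  map_smul' c ξ := rfl
  norm_map' ξ := norm_shift 1 ξ

theorem mult_mem {p : ℝ≥0∞} [Fact (1 ≤ p)] (h : X ≃ₜ X) (π₀ : CRep X E) (f : C(X, ℂ))
    (ξ : Ell E p) : Memℓp (fun n => π₀.op (act h (-n) f) (ξ.val n)) p := by
  refine Memℓp.mono' (lp.memℓp ((‖f‖ : ℂ) • (show lp (fun _ : ℤ => E) p from ξ))) fun n => ?_
  rw [lp.coeFn_smul, Pi.smul_apply, norm_smul, Complex.norm_real, Real.norm_eq_abs,
    abs_of_nonneg (norm_nonneg _)]
  refine ((π₀.op _).le_opNorm _).trans ?_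
  exact mul_le_mul_of_nonneg_right ((π₀.norm_op _).trans (norm_act_le h _ f)) (norm_nonneg _)

/-- The vector `(π(f)ξ)(n) = π₀(α^{-n}(f)) ξ(n)` of `ℓ^p(ℤ, E)`. -/
noncomputable def multVec {p : ℝ≥0∞} [Fact (1 ≤ p)] (h : X ≃ₜ X) (π₀ : CRep X E) (f : C(X, ℂ))
    (ξ : Ell E p) : Ell E p :=
  Ell.mk (fun n => π₀.op (act h (-n) f) (ξ.val n)) (mult_mem h π₀ f ξ)

theorem norm_multVec {p : ℝ≥0∞} [Fact (1 ≤ p)] (h : X ≃ₜ X) (π₀ : CRep X E) (f : C(X, ℂ))
    (ξ : Ell E p) : ‖multVec h π₀ f ξ‖ ≤ ‖f‖ * ‖ξ‖ := by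
  have hp : p ≠ 0 := by
    have : 1 ≤ p := Fact.out
    exact (lt_of_lt_of_le one_pos this).ne'
  have h1 : ‖(⟨fun n => π₀.op (act h (-n) f) (ξ.val n), mult_mem h π₀ f ξ⟩ :
      lp (fun _ : ℤ => E) p)‖ ≤ ‖(‖f‖ : ℂ) • (show lp (fun _ : ℤ => E) p from ξ)‖ := by
    refine lp.norm_mono hp fun n => ?_
    rw [lp.coeFn_smul, Pi.smul_apply, norm_smul, Complex.norm_real, Real.norm_eq_abs,
      abs_of_nonneg (norm_nonneg _)]
    refine ((π₀.op _).le_opNorm _).trans ?_
    exact mul_le_mul_of_nonneg_right ((π₀.norm_op _).trans (norm_act_le h _ f)) (norm_nonneg _)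
  refine h1.trans (le_of_eq ?_)
  rw [norm_smul, Complex.norm_real, Real.norm_eq_abs, abs_of_nonneg (norm_nonneg _)]
  rfl

/-- The operator `(π(f)ξ)(n) = π₀(α^{-n}(f)) ξ(n)` on `ℓ^p(ℤ, E)`. -/
noncomputable def multZ (h : X ≃ₜ X) (p : ℝ≥0∞) [Fact (1 ≤ p)] (π₀ : CRep X E) (f : C(X, ℂ)) :
    Ell E p →L[ℂ] Ell E p :=
  LinearMap.mkContinuous
    { toFun := multVec h π₀ f
      map_add' := fun ξ η => Subtype.ext (funext fun n => map_add (π₀.op _) (ξ.val n) (η.val n))
      map_smul' := fun c ξ => Subtype.ext (funext fun n => map_smul (π₀.op _) c (ξ.val n)) }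
    ‖f‖ (norm_multVec h π₀ f)

theorem norm_multZ (h : X ≃ₜ X) (p : ℝ≥0∞) [Fact (1 ≤ p)] (π₀ : CRep X E) (f : C(X, ℂ)) :
    ‖multZ h p π₀ f‖ ≤ ‖f‖ :=
  LinearMap.mkContinuous_norm_le _ (norm_nonneg f) (norm_multVec h π₀ f)

/-- The representation `(π(f)ξ)(n) = π₀(α^{-n}(f)) ξ(n)` of `C(X)` on `ℓ^p(ℤ, E)`. -/
noncomputable def regularPi (h : X ≃ₜ X) (p : ℝ≥0∞) [Fact (1 ≤ p)] (π₀ : CRep X E) :
    CRep X (Ell E p) where
  op := multZ h p π₀
  op_one := ContinuousLinearMap.ext fun ξ => Subtype.ext (funext fun n => by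
    change π₀.op (act h (-n) 1) (ξ.val n) = ξ.val n
    rw [act_one, π₀.op_one]; rfl)
  op_mul := fun f g => ContinuousLinearMap.ext fun ξ => Subtype.ext (funext fun n => by
    change π₀.op (act h (-n) (f * g)) (ξ.val n)
      = π₀.op (act h (-n) f) (π₀.op (act h (-n) g) (ξ.val n))
    rw [act_mul, π₀.op_mul]; rfl)
  op_add := fun f g => ContinuousLinearMap.ext fun ξ => Subtype.ext (funext fun n => by
    change π₀.op (act h (-n) (f + g)) (ξ.val n)
      = π₀.op (act h (-n) f) (ξ.val n) + π₀.op (act h (-n) g) (ξ.val n)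
    rw [act_add, π₀.op_add]; rfl)
  op_smul := fun c f => ContinuousLinearMap.ext fun ξ => Subtype.ext (funext fun n => by
    change π₀.op (act h (-n) (c • f)) (ξ.val n) = c • π₀.op (act h (-n) f) (ξ.val n)
    rw [act_smul, π₀.op_smul]; rfl)
  norm_op := norm_multZ h p π₀

theorem regular_cov (h : X ≃ₜ X) (p : ℝ≥0∞) [Fact (1 ≤ p)] (π₀ : CRep X E) (f : C(X, ℂ))
    (ξ : Ell E p) : shiftZ E p (multZ h p π₀ f ξ) = multZ h p π₀ (act h 1 f) (shiftZ E p ξ) :=
  Subtype.ext (funext fun n => by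
    change π₀.op (act h (-(n - 1)) f) (ξ.val (n - 1))
      = π₀.op (act h (-n) (act h 1 f)) (ξ.val (n - 1))
    rw [act_act, show -(n - 1) = -n + 1 by ring])

/-- The regular covariant representation on `ℓ^p(ℤ, E)` associated with a contractive
nondegenerate representation `π₀` of `C(X)` on `E`:
`(π(f)ξ)(n) = π₀(α^{-n}(f)) ξ(n)` and `(vξ)(n) = ξ(n-1)`. -/
noncomputable def regularRep (h : X ≃ₜ X) (p : ℝ≥0∞) [Fact (1 ≤ p)] (π₀ : CRep X E) :
    CovPair X h (Ell E p) where
  π := regularPi h p π₀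
  v := shiftZ E p
  cov := regular_cov h p π₀

end Reg

section Norms

variable {X : Type*} [TopologicalSpace X] [CompactSpace X]

variable (h : X ≃ₜ X) (p : ℝ≥0∞) [Fact (1 ≤ p)]

/-- The set of the norms `‖∑ π(a(n)) v^n‖` over all contractive covariant representations on
`L^p(Ω, μ)` with `μ` σ-finite. -/
def fullSet (a : Cc X h) : Set ℝ :=
  {t | ∃ (Ω : Type) (_ : MeasurableSpace Ω) (μ : Measure Ω) (_ : SigmaFinite μ)
    (r : CovPair X h (LL p μ)), t = ‖r.integ a‖}

/-- The set of the norms `‖∑ π(a(n)) v^n‖` over all regular representations, on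
`ℓ^p(ℤ, L^p(Ω, μ))` with `μ` σ-finite. -/
def redSet (a : Cc X h) : Set ℝ :=
  {t | ∃ (Ω : Type) (_ : MeasurableSpace Ω) (μ : Measure Ω) (_ : SigmaFinite μ)
    (π₀ : CRep X (LL p μ)), t = ‖(regularRep h p π₀).integ a‖}

/-- The norm of the full crossed product. -/
noncomputable def fullNorm (a : Cc X h) : ℝ := sSup (fullSet h p a)

/-- The norm of the reduced crossed product. -/
noncomputable def redNorm (a : Cc X h) : ℝ := sSup (redSet h p a)

end Norms

/-- A homeomorphism is minimal if every orbit is dense. -/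
def IsMinimalHomeo {X : Type*} [TopologicalSpace X] (h : X ≃ₜ X) : Prop :=
  ∀ x : X, Dense (Set.range fun n : ℤ => (h ^ n : X ≃ₜ X) x)

end Pool.Agent.H74R4
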