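import Pool.Agent.H74R4.Source

/-!
# The `ℓ^p` structure of an orbit
-/

open MeasureTheory
open scoped ENNReal

namespace Pool.Agent.H74R4

variable {X : Type*} [TopologicalSpace X] [CompactSpace X] [NormalSpace X] {h : X ≃ₜ X}
  {p : ℝ≥0∞} [Fact (1 ≤ p)]

section

variable {E : Type*} [NormedAddCommGroup E] [NormedSpace ℂ E]

/-- The integrated form as a linear map. -/
noncomputable def CovRep.integL (r : CovRep X h E) : Cc X h →ₗ[ℂ] (E →L[ℂ] E) where
  toFun := r.integ
  map_add' := r.integ_add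
  map_smul' c a := r.integ_smul c a

theorem CovRep.integ_sum (r : CovRep X h E) {ι : Type*} (s : Finset ι) (a : ι → Cc X h) :
    r.integ (∑ i ∈ s, a i) = ∑ i ∈ s, r.integ (a i) :=
  map_sum r.integL a s

end

/-- The translates `h^n(K)`, `n ∈ s`, are pairwise disjoint. -/
def SepOn (h : X ≃ₜ X) (s : Finset ℤ) (K : Set X) : Prop :=
  ∀ i ∈ s, ∀ j ∈ s, i ≠ j → Disjoint ((h ^ i : X ≃ₜ X) '' K) ((h ^ j : X ≃ₜ X) '' K)

theorem act_vanish {g : C(X, ℂ)} {K : Set X} (hg : ∀ x, x ∉ K → g x = 0) (n : ℤ) (x : X)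
    (hx : x ∉ (h ^ n : X ≃ₜ X) '' K) : act h n g x = 0 := by
  rw [act_apply]
  apply hg
  intro hK
  apply hx
  refine ⟨_, hK, ?_⟩
  have : (h ^ n * h ^ (-n) : X ≃ₜ X) x = x := by
    rw [← zpow_add]; simp
  exact this

theorem norm_sum_act_le {g : C(X, ℂ)} (hg1 : ‖g‖ ≤ 1) {K : Set X}
    (hg : ∀ x, x ∉ K → g x = 0) {s : Finset ℤ} (hs : SepOn h s K) :
    ‖∑ n ∈ s, act h n g‖ ≤ 1 := by
  rw [ContinuousMap.norm_le _ zero_le_one]
  intro x
  rw [ContinuousMap.sum_apply]
  by_cases hx : ∃ n ∈ s, x ∈ (h ^ n : X ≃ₜ X) '' K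
  · obtain ⟨n, hn, hxn⟩ := hx
    rw [Finset.sum_eq_single_of_mem n hn]
    · exact (g.norm_coe_le_norm _).trans hg1
    · intro m hm hmn
      apply act_vanish hg
      intro hxm
      exact Set.disjoint_left.1 (hs m hm n hn hmn) hxm hxn
  · push Not at hx
    rw [Finset.sum_eq_zero]
    · simp
    · intro n hn
      exact act_vanish hg n x (hx n hn)

theorem T_bound (hp : p ≠ ∞) {g : C(X, ℂ)} (hg1 : ‖g‖ ≤ 1) {K : Set X} (hK : IsClosed K)
    (hg : ∀ x, x ∉ K → g x = 0) {s : Finset ℤ} (hs : SepOn h s K) (c : ℤ → ℂ)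
    (hc : ∀ n, ‖c n‖ ≤ 1) :
    fullNorm h p (∑ n ∈ s, c n • Cc.single h n (act h n g)) ≤ (s.card : ℝ) ^ (1 / p.toReal) := by
  have hq : 0 < p.toReal := by linarith [one_le_toReal hp]
  have hcard : (0 : ℝ) ≤ s.card := by positivity
  refine fullNorm_le' h p _ (Real.rpow_nonneg hcard _) ?_
  intro Ω _ μ _ r
  refine ContinuousLinearMap.opNorm_le_bound _ (Real.rpow_nonneg hcard _) fun ξ => ?_
  have e1 : r.integ (∑ n ∈ s, c n • Cc.single h n (act h n g)) ξ
      = ∑ n ∈ s, r.π (act h n g) (c n • r.V n ξ) := by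
    rw [r.integ_sum, sum_apply]
    refine Finset.sum_congr rfl fun n _ => ?_
    rw [r.integ_smul, r.integ_single, smul_apply, map_smul]
    rfl
  have e2 := sum_norm_rpow hp r.π r.contractive s (fun n => (h ^ n : X ≃ₜ X) '' K)
    (fun n _ => (h ^ n : X ≃ₜ X).isClosed_image.2 hK) hs (fun n => act h n g)
    (fun n _ x hx => act_vanish hg n x hx) (fun n => c n • r.V n ξ)
  rw [← e1] at e2
  have e3 : ‖r.integ (∑ n ∈ s, c n • Cc.single h n (act h n g)) ξ‖ ^ p.toReal
      ≤ s.card * ‖ξ‖ ^ p.toReal := by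
    rw [e2]
    calc _ ≤ ∑ n ∈ s, ‖ξ‖ ^ p.toReal := by
          refine Finset.sum_le_sum fun n _ => ?_
          refine Real.rpow_le_rpow (norm_nonneg _) ?_ hq.le
          refine ((r.π _).le_opNorm _).trans ?_
          rw [norm_smul, r.norm_V_apply]
          have h1 : ‖r.π (act h n g)‖ ≤ 1 :=
            (r.contractive _).trans ((norm_act_le h n g).trans hg1)
          calc _ ≤ 1 * (1 * ‖ξ‖) := by
                gcongr
                exact hc n
            _ = _ := by ring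
      _ = _ := by rw [Finset.sum_const, nsmul_eq_mul]
  have e4 := Real.rpow_le_rpow (Real.rpow_nonneg (norm_nonneg _) _) e3
    (show 0 ≤ 1 / p.toReal by positivity)
  rw [← Real.rpow_mul (norm_nonneg _), mul_one_div_cancel hq.ne', Real.rpow_one,
    Real.mul_rpow hcard (Real.rpow_nonneg (norm_nonneg _) _), ← Real.rpow_mul (norm_nonneg _),
    mul_one_div_cancel hq.ne', Real.rpow_one] at e4
  exact e4

theorem R_bound (hp : p ≠ ∞) {g : C(X, ℂ)} (hg1 : ‖g‖ ≤ 1) {K : Set X} (hK : IsClosed K)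
    (hg : ∀ x, x ∉ K → g x = 0) {s : Finset ℤ} (hs : SepOn h s K) (c : ℤ → ℂ)
    (hc : ∀ n, ‖c n‖ ≤ 1) :
    fullNorm h p (∑ n ∈ s, c n • Cc.single h (-n) g)
      ≤ (s.card : ℝ) ^ (1 - 1 / p.toReal) := by
  have hq1 := one_le_toReal (p := p) hp
  have hq : 0 < p.toReal := by linarith
  have hcard : (0 : ℝ) ≤ s.card := by positivity
  refine fullNorm_le' h p _ (Real.rpow_nonneg hcard _) ?_
  intro Ω _ μ _ r
  refine ContinuousLinearMap.opNorm_le_bound _ (Real.rpow_nonneg hcard _) fun ξ => ?_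
  have e1 : ‖r.integ (∑ n ∈ s, c n • Cc.single h (-n) g) ξ‖
      ≤ ∑ n ∈ s, |‖r.π (act h n g) ξ‖| := by
    rw [r.integ_sum, sum_apply]
    refine (norm_sum_le _ _).trans (Finset.sum_le_sum fun n _ => ?_)
    rw [r.integ_smul, r.integ_single, smul_apply, norm_smul, abs_norm]
    have h1 : r.V n ((r.π g * r.V (-n)) ξ) = r.π (act h n g) ξ := by
      have : r.V n * (r.π g * r.V (-n)) = r.π (act h n g) := by
        rw [← mul_assoc, r.V_pi, mul_assoc, ← r.V_add]
        simp [r.V_zero]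
      rw [← this]; rfl
    rw [← h1, r.norm_V_apply]
    calc _ ≤ 1 * ‖(r.π g * r.V (-n)) ξ‖ := by
          gcongr
          exact hc n
      _ = _ := one_mul _
  have e2 := sum_norm_rpow hp r.π r.contractive s (fun n => (h ^ n : X ≃ₜ X) '' K)
    (fun n _ => (h ^ n : X ≃ₜ X).isClosed_image.2 hK) hs (fun n => act h n g)
    (fun n _ x hx => act_vanish hg n x hx) (fun _ => ξ)
  have e3 : ∑ n ∈ s, |‖r.π (act h n g) ξ‖| ^ p.toReal ≤ ‖ξ‖ ^ p.toReal := by
    simp only [abs_norm]
    rw [← e2]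
    refine Real.rpow_le_rpow (norm_nonneg _) ?_ hq.le
    have h2 : ∑ n ∈ s, r.π (act h n g) ξ = r.π (∑ n ∈ s, act h n g) ξ := by
      rw [map_sum, sum_apply]
    rw [h2]
    refine ((r.π _).le_opNorm _).trans ?_
    calc _ ≤ 1 * ‖ξ‖ := by
          gcongr
          exact (r.contractive _).trans (norm_sum_act_le hg1 hg hs)
      _ = _ := one_mul _
  have e4 : (∑ n ∈ s, |‖r.π (act h n g) ξ‖|) ^ p.toReal
      ≤ (s.card : ℝ) ^ (p.toReal - 1) * ‖ξ‖ ^ p.toReal :=
    (Real.rpow_sum_le_const_mul_sum_rpow s (fun n => ‖r.π (act h n g) ξ‖) hq1).trans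
      (by gcongr)
  have hsum0 : 0 ≤ ∑ n ∈ s, |‖r.π (act h n g) ξ‖| := Finset.sum_nonneg fun n _ => abs_nonneg _
  have e5 := Real.rpow_le_rpow (Real.rpow_nonneg hsum0 _) e4
    (show 0 ≤ 1 / p.toReal by positivity)
  rw [← Real.rpow_mul hsum0, mul_one_div_cancel hq.ne', Real.rpow_one,
    Real.mul_rpow (Real.rpow_nonneg hcard _) (Real.rpow_nonneg (norm_nonneg _) _),
    ← Real.rpow_mul (norm_nonneg _), mul_one_div_cancel hq.ne', Real.rpow_one,
    ← Real.rpow_mul hcard] at e5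
  have e6 : (p.toReal - 1) * (1 / p.toReal) = 1 - 1 / p.toReal := by
    field_simp
  rw [e6] at e5
  exact e1.trans e5

section Orbit

variable {Y : Type*} [NormedAddCommGroup Y] [NormedSpace ℂ Y]

/-- The vector `V_n η` where `V_n` is the image of `v^n`. -/
noncomputable def orb (ψ : Cc X h →ₗ[ℂ] (Y →L[ℂ] Y)) (η : Y) (n : ℤ) : Y :=
  ψ (Cc.single h n 1) η

theorem orbit_bounds (hp : p ≠ ∞) (ψ : Cc X h →ₗ[ℂ] (Y →L[ℂ] Y))
    (hmul : ∀ a b, ψ (a * b) = ψ a * ψ b) {C : ℝ} (hC : 0 ≤ C)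
    (hψ : ∀ a, ‖ψ a‖ ≤ C * fullNorm h p a)
    {g : C(X, ℂ)} (hg1 : ‖g‖ ≤ 1) {K : Set X} (hK : IsClosed K)
    (hg : ∀ x, x ∉ K → g x = 0) {s : Finset ℤ} (hs : SepOn h s K)
    {η : Y} (hη : ψ (Cc.single h 0 g) η = η) (c : ℤ → ℂ) (hc : ∀ n, ‖c n‖ = 1) :
    ‖∑ n ∈ s, c n • orb ψ η n‖ ≤ C * (s.card : ℝ) ^ (1 / p.toReal) * ‖η‖ ∧
    (s.card : ℝ) ^ (1 / p.toReal) * ‖η‖ ≤ C * ‖∑ n ∈ s, c n • orb ψ η n‖ := by
  have hq : 0 < p.toReal := by linarith [one_le_toReal hp]
  have e1 : ∑ n ∈ s, c n • orb ψ η n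
      = ψ (∑ n ∈ s, c n • Cc.single h n (act h n g)) η := by
    rw [map_sum, sum_apply]
    refine Finset.sum_congr rfl fun n _ => ?_
    rw [map_smul, smul_apply]
    congr 1
    have : Cc.single h n (act h n g) = Cc.single h n 1 * Cc.single h 0 g := by
      rw [Cc.single_mul_single, add_zero, one_mul]
    rw [this, hmul]
    change _ = ψ (Cc.single h n 1) (ψ (Cc.single h 0 g) η)
    rw [hη]
    rfl
  constructor
  · rw [e1]
    refine ((ψ _).le_opNorm _).trans ?_
    gcongr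
    refine (hψ _).trans ?_
    gcongr
    exact T_bound hp hg1 hK hg hs c (fun n => (hc n).le)
  · by_cases hs0 : s.card = 0
    · rw [hs0]
      simp only [CharP.cast_eq_zero]
      rw [Real.zero_rpow (by positivity), zero_mul]
      positivity
    have hcard : (0 : ℝ) < s.card := by positivity
    have e2 : ψ (∑ n ∈ s, (starRingEnd ℂ) (c n) • Cc.single h (-n) g)
        (∑ n ∈ s, c n • orb ψ η n) = (s.card : ℂ) • η := by
      have e3 : ∀ m ∈ s, ψ (Cc.single h (-m) g) (∑ n ∈ s, c n • orb ψ η n) = c m • η := by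
        intro m hm
        rw [map_sum, Finset.sum_eq_single_of_mem m hm]
        · rw [map_smul]
          congr 1
          unfold orb
          have : Cc.single h (-m) g * Cc.single h m 1 = Cc.single h 0 g := by
            rw [Cc.single_mul_single, neg_add_cancel, act_one, mul_one]
          change (ψ (Cc.single h (-m) g) * ψ (Cc.single h m 1)) η = η
          rw [← hmul, this, hη]
        · intro n hn hnm
          rw [map_smul]
          have : Cc.single h (-m) g * (Cc.single h n 1 * Cc.single h 0 g) = 0 := by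
            rw [Cc.single_mul_single, Cc.single_mul_single]
            have h0 : g * act h (-m) (1 * act h n g) = 0 := by
              ext x
              rw [one_mul, act_act, ContinuousMap.mul_apply, act_apply]
              by_cases hx : x ∈ K
              · by_cases hx2 : (h ^ (-(-m + n)) : X ≃ₜ X) x ∈ K
                · exfalso
                  have d1 : (h ^ m : X ≃ₜ X) x ∈ (h ^ m : X ≃ₜ X) '' K := ⟨x, hx, rfl⟩
                  have d2 : (h ^ m : X ≃ₜ X) x ∈ (h ^ n : X ≃ₜ X) '' K := by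
                    refine ⟨_, hx2, ?_⟩
                    change (h ^ n * h ^ (-(-m + n)) : X ≃ₜ X) x = _
                    rw [← zpow_add]
                    congr 2
                    ring
                  exact Set.disjoint_left.1 (hs m hm n hn (Ne.symm hnm)) d1 d2
                · rw [hg _ hx2]; simp
              · rw [hg x hx]; simp
            rw [h0, Cc.single_zero]
          have h1 : ψ (Cc.single h (-m) g) (orb ψ η n) = 0 := by
            unfold orb
            rw [← hη]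
            change (ψ (Cc.single h (-m) g) * (ψ (Cc.single h n 1) * ψ (Cc.single h 0 g))) η = 0
            rw [← hmul, ← hmul, this, map_zero]
            rfl
          rw [h1, smul_zero]
      rw [map_sum ψ, sum_apply]
      have e4 : ∀ m ∈ s, ψ ((starRingEnd ℂ) (c m) • Cc.single h (-m) g)
          (∑ n ∈ s, c n • orb ψ η n) = η := by
        intro m hm
        rw [map_smul, smul_apply, e3 m hm, smul_smul]
        have : (starRingEnd ℂ) (c m) * c m = 1 := by
          rw [mul_comm, Complex.mul_conj, Complex.normSq_eq_norm_sq, hc m]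
          norm_num
        rw [this, one_smul]
      rw [Finset.sum_congr rfl e4, Finset.sum_const, ← Nat.cast_smul_eq_nsmul ℂ]
    have e5 : (s.card : ℝ) * ‖η‖ ≤ C * (s.card : ℝ) ^ (1 - 1 / p.toReal)
        * ‖∑ n ∈ s, c n • orb ψ η n‖ := by
      have : ‖(s.card : ℂ) • η‖ = (s.card : ℝ) * ‖η‖ := by
        rw [norm_smul]; simp
      rw [← this, ← e2]
      refine ((ψ _).le_opNorm _).trans ?_
      gcongr
      refine (hψ _).trans ?_
      gcongr
      exact R_bound hp hg1 hK hg hs _ (fun n => by simp [hc n])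
    have e6 : (s.card : ℝ) = (s.card : ℝ) ^ (1 - 1 / p.toReal) * (s.card : ℝ) ^ (1 / p.toReal) := by
      rw [← Real.rpow_add hcard]
      simp
    have hpos : 0 < (s.card : ℝ) ^ (1 - 1 / p.toReal) := Real.rpow_pos_of_pos hcard _
    have e7 : (s.card : ℝ) ^ (1 - 1 / p.toReal) * ((s.card : ℝ) ^ (1 / p.toReal) * ‖η‖)
        ≤ (s.card : ℝ) ^ (1 - 1 / p.toReal) * (C * ‖∑ n ∈ s, c n • orb ψ η n‖) := by
      rw [← mul_assoc, ← e6]
      calc _ ≤ _ := e5
        _ = _ := by ring
    exact le_of_mul_le_mul_left e7 hpos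

end Orbit

end Pool.Agent.H74R4
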