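import Pool.Agent.H74R4.Tgt3
import Pool.Agent.H74R4.Orbit

/-!
# Extension to the completions, infinite orbits, separated translates
-/

open MeasureTheory Filter Topology
open scoped ENNReal

namespace Pool.Agent.H74R4

section Ext

variable {A : Type*} [SeminormedRing A] [NormedSpace ℂ A] {S : Type*} [NormedRing S]
  [NormedSpace ℂ S] [CompleteSpace S]

theorem cont_of_bound (f : A →+* S) (hf : ∀ a, ‖f a‖ ≤ ‖a‖) : Continuous f := by
  have : LipschitzWith 1 f := LipschitzWith.of_dist_le_mul fun a b => by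
    rw [dist_eq_norm, dist_eq_norm, ← map_sub]
    simpa using hf (a - b)
  exact this.continuous

/-- The extension of a contractive ring homomorphism to the completion. -/
noncomputable def ext (f : A →+* S) (hf : ∀ a, ‖f a‖ ≤ ‖a‖) :
    UniformSpace.Completion A →+* S :=
  UniformSpace.Completion.extensionHom f (cont_of_bound f hf)

theorem ext_coe (f : A →+* S) (hf : ∀ a, ‖f a‖ ≤ ‖a‖) (a : A) :
    ext f hf (a : UniformSpace.Completion A) = f a :=
  UniformSpace.Completion.extensionHom_coe f (cont_of_bound f hf) a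

theorem continuous_ext (f : A →+* S) (hf : ∀ a, ‖f a‖ ≤ ‖a‖) : Continuous (ext f hf) :=
  UniformSpace.Completion.continuous_extension

theorem norm_ext_le (f : A →+* S) (hf : ∀ a, ‖f a‖ ≤ ‖a‖) (b : UniformSpace.Completion A) :
    ‖ext f hf b‖ ≤ ‖b‖ := by
  induction b using UniformSpace.Completion.induction_on with
  | hp => exact isClosed_le (continuous_ext f hf).norm continuous_norm
  | ih a => rw [ext_coe, UniformSpace.Completion.norm_coe]; exact hf a

theorem ext_smul (f : A →+* S) (hf : ∀ a, ‖f a‖ ≤ ‖a‖) (hs : ∀ (c : ℂ) a, f (c • a) = c • f a)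
    (c : ℂ) (b : UniformSpace.Completion A) : ext f hf (c • b) = c • ext f hf b := by
  induction b using UniformSpace.Completion.induction_on with
  | hp =>
    exact isClosed_eq ((continuous_ext f hf).comp (continuous_const_smul c))
      ((continuous_ext f hf).const_smul c)
  | ih a => rw [← UniformSpace.Completion.coe_smul, ext_coe, ext_coe, hs]

end Ext

section Min

variable {X : Type*} [TopologicalSpace X]

theorem orbit_injective [T1Space X] [Infinite X] {h : X ≃ₜ X} (hm : IsMinimalHomeo h) (x : X)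
    {m n : ℤ} (hmn : (h ^ m : X ≃ₜ X) x = (h ^ n : X ≃ₜ X) x) : m = n := by
  by_contra hne
  have key : ∀ k : ℤ, k ≠ 0 → (h ^ k : X ≃ₜ X) x ≠ x := by
    intro k hk hkx
    have h1 : ∀ q : ℤ, (h ^ (k * q) : X ≃ₜ X) x = x := by
      intro q
      induction q using Int.induction_on with
      | zero => simp
      | succ i ih =>
        rw [mul_add, mul_one, add_comm, zpow_add]
        change (h ^ k : X ≃ₜ X) ((h ^ (k * (i : ℤ)) : X ≃ₜ X) x) = x
        rw [ih, hkx]
      | pred i ih =>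
        have h2 : (h ^ (k * (-i : ℤ)) : X ≃ₜ X) x
            = (h ^ k : X ≃ₜ X) ((h ^ (k * (-i - 1 : ℤ)) : X ≃ₜ X) x) := by
          change _ = (h ^ k * h ^ (k * (-i - 1 : ℤ)) : X ≃ₜ X) x
          rw [← zpow_add]
          congr 2
          ring
        rw [ih] at h2
        have h3 : (h ^ k : X ≃ₜ X) x = (h ^ k : X ≃ₜ X) ((h ^ (k * (-i - 1 : ℤ)) : X ≃ₜ X) x) := by
          rw [← h2, hkx]
        exact ((h ^ k : X ≃ₜ X).injective h3).symm
    have hfin : (Set.range fun n : ℤ => (h ^ n : X ≃ₜ X) x).Finite := by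
      refine ((Finset.Ico (0 : ℤ) |k|).finite_toSet.image
        (fun n : ℤ => (h ^ n : X ≃ₜ X) x)).subset ?_
      rintro _ ⟨n, rfl⟩
      refine ⟨n % k, ?_, ?_⟩
      · simp only [Finset.coe_Ico, Set.mem_Ico]
        exact ⟨Int.emod_nonneg n hk, Int.emod_lt_abs n hk⟩
      · have h4 : n = n % k + k * (n / k) := (Int.emod_add_mul_ediv n k).symm
        change (h ^ (n % k) : X ≃ₜ X) x = (h ^ n : X ≃ₜ X) x
        conv_rhs => rw [h4]
        rw [zpow_add]
        change _ = (h ^ (n % k) : X ≃ₜ X) ((h ^ (k * (n / k)) : X ≃ₜ X) x)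
        rw [h1]
    have huniv : (Set.range fun n : ℤ => (h ^ n : X ≃ₜ X) x) = Set.univ := by
      have := (hm x).closure_eq
      rwa [hfin.isClosed.closure_eq] at this
    rw [huniv] at hfin
    exact Set.infinite_univ hfin
  refine key (m - n) (sub_ne_zero.2 hne) ?_
  have h5 : (h ^ (-n) : X ≃ₜ X) ((h ^ m : X ≃ₜ X) x)
      = (h ^ (-n) : X ≃ₜ X) ((h ^ n : X ≃ₜ X) x) := by rw [hmn]
  have h6 : (h ^ (-n) : X ≃ₜ X) ((h ^ n : X ≃ₜ X) x) = x := by
    change (h ^ (-n) * h ^ n : X ≃ₜ X) x = x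
    rw [← zpow_add]; simp
  rw [h6] at h5
  have h7 : (h ^ (m - n) : X ≃ₜ X) x = (h ^ (-n) : X ≃ₜ X) ((h ^ m : X ≃ₜ X) x) := by
    change _ = (h ^ (-n) * h ^ m : X ≃ₜ X) x
    rw [← zpow_add]
    congr 2
    ring
  rw [h7, h5]

end Min

section Sep

variable {X : Type*} [MetricSpace X] [CompactSpace X] [Infinite X] {h : X ≃ₜ X}

theorem exists_sep (hm : IsMinimalHomeo h) (s : Finset ℤ) (x : X) :
    ∃ r : ℝ, 0 < r ∧ SepOn h s (Metric.closedBall x r) := by
  have key : ∀ i ∈ s, ∀ j ∈ s, ∀ᶠ r in 𝓝[>] (0 : ℝ), i ≠ j →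
      Disjoint ((h ^ i : X ≃ₜ X) '' Metric.closedBall x r)
        ((h ^ j : X ≃ₜ X) '' Metric.closedBall x r) := by
    intro i _ j _
    by_cases hij : i = j
    · exact Eventually.of_forall fun r hr => absurd hij hr
    have hne : (h ^ i : X ≃ₜ X) x ≠ (h ^ j : X ≃ₜ X) x := fun he => hij (orbit_injective hm x he)
    obtain ⟨U, V, hU, hV, hxU, hxV, hd⟩ := t2_separation hne
    have h1 : (h ^ i : X ≃ₜ X) ⁻¹' U ∩ (h ^ j : X ≃ₜ X) ⁻¹' V ∈ 𝓝 x :=
      ((hU.preimage (h ^ i : X ≃ₜ X).continuous).inter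
        (hV.preimage (h ^ j : X ≃ₜ X).continuous)).mem_nhds ⟨hxU, hxV⟩
    obtain ⟨ε, hε, hball⟩ := Metric.nhds_basis_closedBall.mem_iff.1 h1
    filter_upwards [Ioc_mem_nhdsGT hε] with r hr _
    have h2 : Metric.closedBall x r ⊆ (h ^ i : X ≃ₜ X) ⁻¹' U ∩ (h ^ j : X ≃ₜ X) ⁻¹' V :=
      (Metric.closedBall_subset_closedBall hr.2).trans hball
    refine Set.disjoint_of_subset ?_ ?_ hd
    · rintro _ ⟨z, hz, rfl⟩
      exact (h2 hz).1
    · rintro _ ⟨z, hz, rfl⟩
      exact (h2 hz).2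
  have key2 : ∀ᶠ r in 𝓝[>] (0 : ℝ), ∀ i ∈ s, ∀ j ∈ s, i ≠ j →
      Disjoint ((h ^ i : X ≃ₜ X) '' Metric.closedBall x r)
        ((h ^ j : X ≃ₜ X) '' Metric.closedBall x r) := by
    rw [Filter.eventually_all_finset]
    intro i hi
    rw [Filter.eventually_all_finset]
    intro j hj
    exact key i hi j hj
  obtain ⟨r, hr, hr0⟩ := (key2.and self_mem_nhdsWithin).exists
  exact ⟨r, hr0, hr⟩

end Sep

section Src

variable {X : Type*} [TopologicalSpace X] [CompactSpace X] [NormalSpace X] {h : X ≃ₜ X}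
  {p : ℝ≥0∞} [Fact (1 ≤ p)]

theorem single_one_pow (e : ℤ) (n : ℕ) :
    (Cc.single h e 1) ^ n = Cc.single h ((n : ℤ) * e) 1 := by
  induction n with
  | zero => simp [Cc.one_def]
  | succ n ih =>
    rw [pow_succ, ih, Cc.single_mul_single]
    push_cast
    rw [show (n : ℤ) * e + e = (n + 1) * e by ring]
    simp

theorem fullNorm_single_one_le (n : ℤ) : fullNorm h p (Cc.single h n 1) ≤ 1 := by
  refine fullNorm_le' h p _ zero_le_one ?_
  intro Ω _ μ _ r
  rw [r.integ_single, map_one, one_mul]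
  exact r.norm_V_le n

theorem fullNorm_single_zero_le (f : C(X, ℂ)) : fullNorm h p (Cc.single h 0 f) ≤ ‖f‖ := by
  refine fullNorm_le' h p _ (norm_nonneg _) ?_
  intro Ω _ μ _ r
  rw [r.integ_single, r.V_zero, mul_one]
  exact r.contractive f

/-- The source estimates in the form used in the final step. -/
theorem src_bounds (hp : p ≠ ∞) (s : Finset ℕ) {K : Set X} (hK : IsClosed K)
    (hs : SepOn h (s.map Nat.castEmbedding) K) {g : C(X, ℂ)} (hg1 : ‖g‖ ≤ 1)
    (hg : ∀ x, x ∉ K → g x = 0) :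
    (∀ c : ℕ → ℂ, (∀ n, ‖c n‖ = 1) →
      fullNorm h p (∑ n ∈ s, c n • ((Cc.single h 1 1) ^ n * Cc.single h 0 g))
        ≤ (s.card : ℝ) ^ (1 / p.toReal) ∧
      fullNorm h p (∑ n ∈ s, (starRingEnd ℂ) (c n) • (Cc.single h 0 g * (Cc.single h (-1) 1) ^ n))
        ≤ (s.card : ℝ) ^ (1 - 1 / p.toReal)) ∧
    ∀ m ∈ s, ∀ n ∈ s, m ≠ n →
      (Cc.single h 0 g * (Cc.single h (-1) 1) ^ m) * ((Cc.single h 1 1) ^ n * Cc.single h 0 g)
        = 0 := by
  have e1 : ∀ n : ℕ, (Cc.single h 1 1) ^ n * Cc.single h 0 g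
      = Cc.single h n (act h n g) := fun n => by
    rw [single_one_pow, mul_one, Cc.single_mul_single, add_zero, one_mul]
  have e2 : ∀ n : ℕ, Cc.single h 0 g * (Cc.single h (-1) 1) ^ n
      = Cc.single h (-(n : ℤ)) g := fun n => by
    rw [single_one_pow, Cc.single_mul_single, zero_add, act_one, mul_one]
    congr 1
    ring
  constructor
  · intro c hc
    have hcard : ((s.map Nat.castEmbedding : Finset ℤ).card : ℝ) = s.card := by
      rw [Finset.card_map]
    constructor
    · have := T_bound hp hg1 hK hg hs (fun n => c n.toNat) (fun n => (hc _).le)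
      rw [Finset.sum_map, Finset.card_map] at this
      simpa only [e1, Nat.castEmbedding_apply, Int.toNat_natCast] using this
    · have := R_bound hp hg1 hK hg hs (fun n => (starRingEnd ℂ) (c n.toNat))
        (fun n => by simp [hc])
      rw [Finset.sum_map, Finset.card_map] at this
      simpa only [e2, Nat.castEmbedding_apply, Int.toNat_natCast] using this
  · intro m hm n hn hmn
    rw [e1, e2, Cc.single_mul_single]
    have h0 : g * act h (-(m : ℤ)) (act h n g) = 0 := by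
      ext x
      rw [act_act, ContinuousMap.mul_apply, act_apply]
      by_cases hx : x ∈ K
      · by_cases hx2 : (h ^ (-(-(m : ℤ) + n)) : X ≃ₜ X) x ∈ K
        · exfalso
          have d1 : (h ^ (m : ℤ) : X ≃ₜ X) x ∈ (h ^ (m : ℤ) : X ≃ₜ X) '' K := ⟨x, hx, rfl⟩
          have d2 : (h ^ (m : ℤ) : X ≃ₜ X) x ∈ (h ^ (n : ℤ) : X ≃ₜ X) '' K := by
            refine ⟨_, hx2, ?_⟩
            change (h ^ (n : ℤ) * h ^ (-(-(m : ℤ) + n)) : X ≃ₜ X) x = _
            rw [← zpow_add]
            congr 2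
            ring
          refine Set.disjoint_left.1 (hs m (Finset.mem_map_of_mem _ hm) n
            (Finset.mem_map_of_mem _ hn) (by exact_mod_cast hmn)) d1 d2
        · rw [hg _ hx2]; simp
      · rw [hg x hx]; simp
    rw [h0, Cc.single_zero]

end Src

end Pool.Agent.H74R4
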