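import Pool.Agent.H74R4.Ptwise

/-!
# Near-identity isometries of `L^p` and disjointness
-/

open MeasureTheory
open scoped ENNReal

namespace Pool.Agent.H74R4

variable {Ω : Type*} [MeasurableSpace Ω] {μ : Measure Ω} {p : ℝ≥0∞} [Fact (1 ≤ p)]

theorem one_le_toReal (hp : p ≠ ∞) : 1 ≤ p.toReal := by
  have h1 : (1 : ℝ≥0∞) ≤ p := Fact.out
  have := ENNReal.toReal_mono hp h1
  simpa using this

theorem p_ne_zero (p : ℝ≥0∞) [Fact (1 ≤ p)] : p ≠ 0 := by
  have h1 : (1 : ℝ≥0∞) ≤ p := Fact.out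
  exact (lt_of_lt_of_le one_pos h1).ne'

theorem Lp_integrable (hp : p ≠ ∞) (f : Lp ℂ p μ) :
    Integrable (fun x => ‖f x‖ ^ p.toReal) μ :=
  (Lp.memLp f).integrable_norm_rpow (p_ne_zero p) hp

theorem norm_rpow_eq (hp : p ≠ ∞) (f : Lp ℂ p μ) :
    ‖f‖ ^ p.toReal = ∫ x, ‖f x‖ ^ p.toReal ∂μ := by
  have hq : 0 < p.toReal := by linarith [one_le_toReal hp]
  rw [Lp.norm_def, (Lp.memLp f).eLpNorm_eq_integral_rpow_norm (p_ne_zero p) hp]
  have hI : 0 ≤ ∫ x, ‖f x‖ ^ p.toReal ∂μ :=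
    integral_nonneg fun x => Real.rpow_nonneg (norm_nonneg _) _
  rw [ENNReal.toReal_ofReal (Real.rpow_nonneg hI _), ← Real.rpow_mul hI,
    inv_mul_cancel₀ hq.ne', Real.rpow_one]

/-- Two elements of `L^p` with disjoint supports. -/
def Disj (f g : Lp ℂ p μ) : Prop := ∀ᵐ x ∂μ, f x = 0 ∨ g x = 0

theorem Disj.norm_add (hp : p ≠ ∞) {f g : Lp ℂ p μ} (h : Disj f g) :
    ‖f + g‖ ^ p.toReal = ‖f‖ ^ p.toReal + ‖g‖ ^ p.toReal := by
  have hq : 0 < p.toReal := by linarith [one_le_toReal hp]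
  rw [norm_rpow_eq hp, norm_rpow_eq hp, norm_rpow_eq hp,
    ← integral_add (Lp_integrable hp f) (Lp_integrable hp g)]
  refine integral_congr_ae ?_
  filter_upwards [h, Lp.coeFn_add f g] with x hx hadd
  rw [hadd, Pi.add_apply]
  rcases hx with hx | hx
  · rw [hx, zero_add, norm_zero, Real.zero_rpow hq.ne', zero_add]
  · rw [hx, add_zero, norm_zero, Real.zero_rpow hq.ne', add_zero]

theorem Disj.norm_sub (hp : p ≠ ∞) {f g : Lp ℂ p μ} (h : Disj f g) :
    ‖f - g‖ ^ p.toReal = ‖f‖ ^ p.toReal + ‖g‖ ^ p.toReal := by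
  have h' : Disj f (-g) := by
    filter_upwards [h, Lp.coeFn_neg g] with x hx hn
    rcases hx with hx | hx
    · exact Or.inl hx
    · right; rw [hn, Pi.neg_apply, hx, neg_zero]
  have := h'.norm_add hp
  rwa [← sub_eq_add_neg, norm_neg] at this

/-- The equality case of Clarkson's inequality characterises disjointness. -/
theorem disj_of_clarkson (hp : p ≠ ∞) (h2 : p.toReal ≠ 2) {f g : Lp ℂ p μ}
    (h : ‖f + g‖ ^ p.toReal + ‖f - g‖ ^ p.toReal
      = 2 * ‖f‖ ^ p.toReal + 2 * ‖g‖ ^ p.toReal) : Disj f g := by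
  have hq : 0 < p.toReal := by linarith [one_le_toReal hp]
  have i1 := Lp_integrable hp (f + g)
  have i2 := Lp_integrable hp (f - g)
  have i3 := Lp_integrable hp f
  have i4 := Lp_integrable hp g
  rw [norm_rpow_eq hp, norm_rpow_eq hp, norm_rpow_eq hp, norm_rpow_eq hp] at h
  set D : Ω → ℝ := fun x => ((‖(f + g) x‖ ^ p.toReal + ‖(f - g) x‖ ^ p.toReal)
    - (2 * ‖f x‖ ^ p.toReal + 2 * ‖g x‖ ^ p.toReal)) with hD
  have iD : Integrable D μ := (i1.add i2).sub ((i3.const_mul 2).add (i4.const_mul 2))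
  have eD : ∫ x, D x ∂μ = 0 := by
    have e1 : ∫ x, D x ∂μ = ∫ x, (‖(f + g) x‖ ^ p.toReal + ‖(f - g) x‖ ^ p.toReal) ∂μ
        - ∫ x, (2 * ‖f x‖ ^ p.toReal + 2 * ‖g x‖ ^ p.toReal) ∂μ :=
      integral_sub (i1.add i2) ((i3.const_mul 2).add (i4.const_mul 2))
    rw [e1, integral_add i1 i2, integral_add (i3.const_mul 2) (i4.const_mul 2),
      integral_const_mul, integral_const_mul]
    linarith
  rcases lt_or_gt_of_ne h2 with hlt | hgt
  · have hneg : 0 ≤ᵐ[μ] fun x => -D x := by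
      filter_upwards [Lp.coeFn_add f g, Lp.coeFn_sub f g] with x hadd hsub
      have := (clarkson_lt hq hlt (f x) (g x)).1
      simp only [hD, hadd, hsub, Pi.add_apply, Pi.sub_apply, Pi.zero_apply]
      linarith
    have e2 : ∫ x, -D x ∂μ = 0 := by rw [integral_neg, eD, neg_zero]
    have := (integral_eq_zero_iff_of_nonneg_ae hneg iD.neg).1 e2
    filter_upwards [this, Lp.coeFn_add f g, Lp.coeFn_sub f g] with x hx hadd hsub
    refine (clarkson_lt hq hlt (f x) (g x)).2 ?_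
    simp only [hD, hadd, hsub, Pi.add_apply, Pi.sub_apply, Pi.zero_apply] at hx
    linarith
  · have hneg : 0 ≤ᵐ[μ] fun x => D x := by
      filter_upwards [Lp.coeFn_add f g, Lp.coeFn_sub f g] with x hadd hsub
      have := (clarkson_gt hgt (f x) (g x)).1
      simp only [hD, hadd, hsub, Pi.add_apply, Pi.sub_apply, Pi.zero_apply]
      linarith
    have := (integral_eq_zero_iff_of_nonneg_ae hneg iD).1 eD
    filter_upwards [this, Lp.coeFn_add f g, Lp.coeFn_sub f g] with x hx hadd hsub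
    refine (clarkson_gt hgt (f x) (g x)).2 ?_
    simp only [hD, hadd, hsub, Pi.add_apply, Pi.sub_apply, Pi.zero_apply] at hx
    linarith

/-- Multiplication with the indicator function of `S`. -/
noncomputable def cut (S : Set Ω) (hS : MeasurableSet S) (f : Lp ℂ p μ) : Lp ℂ p μ :=
  ((Lp.memLp f).indicator hS).toLp (S.indicator f)

theorem coeFn_cut (S : Set Ω) (hS : MeasurableSet S) (f : Lp ℂ p μ) :
    cut S hS f =ᵐ[μ] S.indicator f := MemLp.coeFn_toLp _

theorem cut_add_cut_compl (S : Set Ω) (hS : MeasurableSet S) (f : Lp ℂ p μ) :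
    cut S hS f + cut Sᶜ hS.compl f = f := by
  refine Lp.ext ?_
  filter_upwards [Lp.coeFn_add (cut S hS f) (cut Sᶜ hS.compl f), coeFn_cut S hS f,
    coeFn_cut Sᶜ hS.compl f] with x h1 h2 h3
  rw [h1, Pi.add_apply, h2, h3]
  by_cases hx : x ∈ S
  · simp [hx]
  · simp [hx]

theorem cut_disj (S : Set Ω) (hS : MeasurableSet S) (f g : Lp ℂ p μ) :
    Disj (cut S hS f) (cut Sᶜ hS.compl g) := by
  filter_upwards [coeFn_cut S hS f, coeFn_cut Sᶜ hS.compl g] with x h2 h3
  rw [h2, h3]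
  by_cases hx : x ∈ S
  · right; simp [hx]
  · left; simp [hx]

/-- An isometry of `L^p`, `p ≠ 2`, preserves disjointness. -/
theorem isom_disj (hp : p ≠ ∞) (h2 : p.toReal ≠ 2) (U : Lp ℂ p μ →L[ℂ] Lp ℂ p μ)
    (hU : ∀ f, ‖U f‖ = ‖f‖) {f g : Lp ℂ p μ} (h : Disj f g) : Disj (U f) (U g) := by
  refine disj_of_clarkson hp h2 ?_
  rw [← map_add, ← map_sub, hU, hU, hU, hU, h.norm_add hp, h.norm_sub hp]
  ring

/-- A near-identity isometry does not enlarge supports. -/
theorem isom_cut (hp : p ≠ ∞) (h2 : p.toReal ≠ 2) (U : Lp ℂ p μ →L[ℂ] Lp ℂ p μ)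
    (hU : ∀ f, ‖U f‖ = ‖f‖) (hU1 : ‖U - 1‖ < 1) (S : Set Ω) (hS : MeasurableSet S)
    (f : Lp ℂ p μ) : ∀ᵐ x ∂μ, x ∉ S → U (cut S hS f) x = 0 := by
  set f1 := cut S hS f with hf1
  set b := cut Sᶜ hS.compl (U f1) with hb
  have hd : Disj f1 b := cut_disj S hS f (U f1)
  have hd2 := isom_disj hp h2 U hU hd
  have hle : ‖b‖ ≤ ‖U b - b‖ := by
    refine Lp.norm_le_norm_of_ae_le ?_
    filter_upwards [hd2, coeFn_cut Sᶜ hS.compl (U f1), Lp.coeFn_sub (U b) b] with x h1 h3 h4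
    rw [h4, Pi.sub_apply]
    by_cases hbx : b x = 0
    · rw [hbx]; simp
    · have hx : x ∈ Sᶜ := by
        by_contra hx
        apply hbx
        rw [hb, h3]
        simp only [Set.indicator_of_notMem hx]
      have h5 : b x = U f1 x := by rw [hb, h3, Set.indicator_of_mem hx]
      rcases h1 with h1 | h1
      · rw [← h5] at h1; exact absurd h1 hbx
      · rw [h1, zero_sub, norm_neg]
  have hle2 : ‖U b - b‖ ≤ ‖U - 1‖ * ‖b‖ := by
    have := (U - 1).le_opNorm b
    simpa using this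
  have hb0 : b = 0 := by
    rw [← norm_eq_zero]
    by_contra hne
    have hpos : 0 < ‖b‖ := lt_of_le_of_ne (norm_nonneg _) (Ne.symm hne)
    have : ‖U - 1‖ * ‖b‖ < 1 * ‖b‖ := mul_lt_mul_of_pos_right hU1 hpos
    linarith
  have h0 : (b : Ω → ℂ) =ᵐ[μ] 0 := by rw [hb0]; exact Lp.coeFn_zero ℂ p μ
  filter_upwards [coeFn_cut Sᶜ hS.compl (U f1), h0] with x h3 h4 hx
  have h5 : b x = U f1 x := by
    rw [hb, h3, Set.indicator_of_mem (show x ∈ Sᶜ from hx)]
  rw [← h5, h4]
  rfl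

/-- A near-identity isometry preserves the modulus. -/
theorem isom_norm_ae (hp : p ≠ ∞) (h2 : p.toReal ≠ 2) (U : Lp ℂ p μ →L[ℂ] Lp ℂ p μ)
    (hU : ∀ f, ‖U f‖ = ‖f‖) (hU1 : ‖U - 1‖ < 1) (f : Lp ℂ p μ) :
    ∀ᵐ x ∂μ, ‖U f x‖ = ‖f x‖ := by
  have hq : 0 < p.toReal := by linarith [one_le_toReal hp]
  have key : (fun x => ‖U f x‖ ^ p.toReal) =ᵐ[μ] fun x => ‖f x‖ ^ p.toReal := by
    refine Integrable.ae_eq_of_forall_setIntegral_eq _ _ (Lp_integrable hp (U f))
      (Lp_integrable hp f) ?_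
    intro S hS _
    have e1 : ∫ x in S, ‖U f x‖ ^ p.toReal ∂μ = ‖U (cut S hS f)‖ ^ p.toReal := by
      rw [norm_rpow_eq hp, ← integral_indicator hS]
      refine integral_congr_ae ?_
      have h1 := isom_cut hp h2 U hU hU1 S hS f
      have h3 := isom_cut hp h2 U hU hU1 Sᶜ hS.compl f
      have h4 : U f = U (cut S hS f) + U (cut Sᶜ hS.compl f) := by
        rw [← map_add, cut_add_cut_compl]
      filter_upwards [h1, h3, Lp.coeFn_add (U (cut S hS f)) (U (cut Sᶜ hS.compl f))] with x h1 h3 h5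
      by_cases hx : x ∈ S
      · rw [Set.indicator_of_mem hx, h4, h5, Pi.add_apply, h3 (by simpa using hx), add_zero]
      · rw [Set.indicator_of_notMem hx, h1 hx, norm_zero, Real.zero_rpow hq.ne']
    have e2 : ∫ x in S, ‖f x‖ ^ p.toReal ∂μ = ‖cut S hS f‖ ^ p.toReal := by
      rw [norm_rpow_eq hp, ← integral_indicator hS]
      refine integral_congr_ae ?_
      filter_upwards [coeFn_cut S hS f] with x h1
      rw [h1]
      by_cases hx : x ∈ S
      · rw [Set.indicator_of_mem hx, Set.indicator_of_mem hx]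
      · rw [Set.indicator_of_notMem hx, Set.indicator_of_notMem hx, norm_zero,
          Real.zero_rpow hq.ne']
    rw [e1, e2, hU]
  filter_upwards [key] with x hx
  exact (Real.rpow_left_inj (norm_nonneg _) (norm_nonneg _) hq.ne').1 hx

/-- If an isometry close to the identity multiplies `a` with `cc` and fixes `b`, then `a` and
`b` are `p`-orthogonal. -/
theorem norm_add_of_rot (hp : p ≠ ∞) (U : Lp ℂ p μ →L[ℂ] Lp ℂ p μ)
    (hU : ∀ f, ‖U f‖ = ‖f‖) (hU1 : ‖U - 1‖ < 1) {a b : Lp ℂ p μ} (ha : U a = cc • a)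
    (hb : U b = b) : ‖a + b‖ ^ p.toReal = ‖a‖ ^ p.toReal + ‖b‖ ^ p.toReal := by
  by_cases h2 : p.toReal = 2
  · have hp2 : p = 2 := by
      rw [← ENNReal.ofReal_toReal hp, h2]; norm_num
    subst hp2
    have n1 : ‖cc • a + b‖ = ‖a + b‖ := by
      rw [← hU (a + b), map_add, ha, hb]
    have n2 : ‖cc • a + Complex.I • b‖ = ‖a + Complex.I • b‖ := by
      rw [← hU (a + Complex.I • b), map_add, map_smul, ha, hb]
    have key : ∀ z w : Lp ℂ 2 μ, ‖z + w‖ ^ 2
        = ‖z‖ ^ 2 + 2 * (inner ℂ z w).re + ‖w‖ ^ 2 := by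
      intro z w
      have := norm_add_sq (𝕜 := ℂ) z w
      simpa using this
    have k1 : (inner ℂ (cc • a) b).re = (inner ℂ a b).re := by
      have e := congrArg (· ^ 2) n1
      have e' : ‖cc • a + b‖ ^ 2 = ‖a + b‖ ^ 2 := e
      rw [key, key, norm_smul, norm_cc, one_mul] at e'
      linarith
    have k2 : (inner ℂ (cc • a) (Complex.I • b)).re = (inner ℂ a (Complex.I • b)).re := by
      have e' : ‖cc • a + Complex.I • b‖ ^ 2 = ‖a + Complex.I • b‖ ^ 2 := by rw [n2]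
      rw [key, key, norm_smul cc a, norm_cc, one_mul] at e'
      linarith
    rw [inner_smul_left] at k1
    rw [inner_smul_left, inner_smul_right] at k2
    have k3 : ((starRingEnd ℂ) cc * inner ℂ a b).im = (inner ℂ a b).im := by
      have e1 : (starRingEnd ℂ) cc * (Complex.I * inner ℂ a b)
          = Complex.I * ((starRingEnd ℂ) cc * inner ℂ a b) := by ring
      rw [e1] at k2
      simp only [Complex.I_mul_re] at k2
      linarith
    have k4 : (starRingEnd ℂ) cc * inner ℂ a b = inner ℂ a b := Complex.ext k1 k3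
    have k5 : ((starRingEnd ℂ) cc - 1) * inner ℂ a b = 0 := by linear_combination k4
    have k6 : inner ℂ a b = 0 := by
      rcases mul_eq_zero.1 k5 with h | h
      · exfalso
        apply re_lt_cc
        have := congrArg (starRingEnd ℂ) (sub_eq_zero.1 h)
        simpa using this
      · exact h
    have := key a b
    rw [k6] at this
    simp only [h2]
    norm_cast
    simpa using this
  · refine Disj.norm_add hp ?_
    have n1 := isom_norm_ae hp h2 U hU hU1 (a + b)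
    have n2 := isom_norm_ae hp h2 U hU hU1 (a + Complex.I • b)
    rw [map_add, ha, hb] at n1
    rw [map_add, map_smul, ha, hb] at n2
    filter_upwards [n1, n2, Lp.coeFn_add (cc • a) b, Lp.coeFn_add (cc • a) (Complex.I • b),
      Lp.coeFn_smul cc a, Lp.coeFn_smul Complex.I b, Lp.coeFn_add a b,
      Lp.coeFn_add a (Complex.I • b)] with x m1 m2 s1 s2 s3 s4 s5 s6
    refine eq_zero_of_rot ?_ ?_
    · rw [s1, s5, Pi.add_apply, Pi.add_apply, s3, Pi.smul_apply, smul_eq_mul] at m1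
      exact m1
    · rw [s2, s6, Pi.add_apply, Pi.add_apply, s3, s4, Pi.smul_apply, Pi.smul_apply, smul_eq_mul,
        smul_eq_mul] at m2
      exact m2

end Pool.Agent.H74R4
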