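import Pool.Agent.H74R4.Ext
import Pool.Agent.H626R5.Final

/-!
# Continuous homomorphisms between L^p crossed products for different exponents vanish
-/

open MeasureTheory Filter Topology
open scoped ENNReal

namespace Pool.Agent.H74R4

section General

variable {X₁ X₂ : Type*} [MetricSpace X₁] [CompactSpace X₁] [Infinite X₁]
  [TopologicalSpace X₂] [CompactSpace X₂] {h₁ : X₁ ≃ₜ X₁} {h₂ : X₂ ≃ₜ X₂}
  {p₁ p₂ : ℝ≥0∞} [Fact (1 ≤ p₁)] [Fact (1 ≤ p₂)]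

/-- The inclusion of `C(X)` in `C_c(ℤ, C(X), α)`. -/
noncomputable def jincl (h₁ : X₁ ≃ₜ X₁) : C(X₁, ℂ) →ₗ[ℂ] Cc X₁ h₁ where
  toFun f := Cc.single h₁ 0 f
  map_add' f g := Cc.single_add 0 f g
  map_smul' c f := (Cc.smul_single c 0 f).symm

/-- A bounded homomorphism from the algebra `C_c(ℤ, C(X₁), α)` with the full norm to the
operators on `ℓ^{p₂}(ℤ)` kills the unit. -/
theorem rep_zero (hm : IsMinimalHomeo h₁) (hp₁ : p₁ ≠ ∞) (hp₂ : p₂ ≠ ∞) (hne : p₁ ≠ p₂)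
    (Ψ : Cc X₁ h₁ →ₗ[ℂ] (lp (fun _ : ℤ => ℂ) p₂ →L[ℂ] lp (fun _ : ℤ => ℂ) p₂))
    (hmul : ∀ a b, Ψ (a * b) = Ψ a * Ψ b) (C : ℝ) (hC : 0 ≤ C) (hΨ : ∀ a, ‖Ψ a‖ ≤ C * fullNorm h₁ p₁ a) :
    Ψ 1 = 0 := by
  have hne' : p₁.toReal ≠ p₂.toReal := fun h => hne ((ENNReal.toReal_eq_toReal_iff' hp₁ hp₂).1 h)
  refine H626Core.orbit_final hp₂ (one_le_toReal hp₁) hne' (fullNorm h₁ p₁) Ψ hmul C hC hΨ
    (jincl h₁) ?_ rfl (fun f => fullNorm_single_zero_le f) (Cc.single h₁ 1 1)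
    (Cc.single h₁ (-1) 1) ?_ ?_ ?_ ?_
  · intro f g
    change Cc.single h₁ 0 (f * g) = Cc.single h₁ 0 f * Cc.single h₁ 0 g
    rw [Cc.single_mul_single, act_zero', add_zero]
  · rw [Cc.single_mul_single]
    simp [Cc.one_def]
  · intro n
    rw [single_one_pow]
    exact fullNorm_single_one_le _
  · intro n
    rw [single_one_pow]
    exact fullNorm_single_one_le _
  · intro s x₀
    obtain ⟨r, hr, hsep⟩ := exists_sep hm (s.map Nat.castEmbedding) x₀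
    refine ⟨r, hr, fun g hg01 hg => ?_⟩
    have hg1 : ‖g‖ ≤ 1 := by
      rw [ContinuousMap.norm_le _ zero_le_one]
      intro x
      obtain ⟨t, ht0, ht1, hgt⟩ := hg01 x
      rw [hgt, Complex.norm_real, Real.norm_of_nonneg ht0]
      exact ht1
    have hg' : ∀ x, x ∉ Metric.closedBall x₀ r → g x = 0 := by
      intro x hx
      apply hg
      rw [Metric.mem_closedBall, not_le] at hx
      exact hx.le
    exact src_bounds hp₁ s Metric.isClosed_closedBall hsep hg1 hg'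

theorem hom_zero (hm : IsMinimalHomeo h₁) (hp₁ : p₁ ≠ ∞) (hp₂ : p₂ ≠ ∞) (hne : p₁ ≠ p₂)
    {B : Type*} [NormedRing B] [NormedSpace ℂ B]
    (ι : Cc X₂ h₂ →+* B) (hι : DenseRange ι)
    (hN : ∀ a : Cc X₂ h₂, ‖ι a‖ ≤ a.toF.sum fun _ f => ‖f‖)
    (σ : X₂ → B →+* (lp (fun _ : ℤ => ℂ) p₂ →L[ℂ] lp (fun _ : ℤ => ℂ) p₂))
    (hσ : ∀ y a, σ y (ι a) = (orep h₂ p₂ y).integ a) (hσc : ∀ y b, ‖σ y b‖ ≤ ‖b‖)
    (hσs : ∀ y (c : ℂ) b, σ y (c • b) = c • σ y b)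
    (φ : FpC X₁ h₁ p₁ →ₙₐ[ℂ] B) (hφ : Continuous φ) : φ = 0 := by
  -- boundedness
  set Φ : FpC X₁ h₁ p₁ →L[ℂ] B :=
    { toFun := φ, map_add' := map_add φ, map_smul' := fun c a => map_smul φ c a, cont := hφ }
    with hΦ
  set e : B := φ 1 with he
  have he2 : e * e = e := by rw [he, ← map_mul, one_mul]
  have hy : ∀ y, σ y e = 0 := by
    intro y
    let Ψ : Cc X₁ h₁ →ₗ[ℂ] (lp (fun _ : ℤ => ℂ) p₂ →L[ℂ] lp (fun _ : ℤ => ℂ) p₂) :=
      { toFun := fun a => σ y (φ ((show CcFull X₁ h₁ p₁ from a : CcFull X₁ h₁ p₁) :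
          FpC X₁ h₁ p₁))
        map_add' := fun a b => by
          have h1 : (((show CcFull X₁ h₁ p₁ from (a + b : Cc X₁ h₁)) : CcFull X₁ h₁ p₁) :
              FpC X₁ h₁ p₁) = ((show CcFull X₁ h₁ p₁ from a) : FpC X₁ h₁ p₁)
                + ((show CcFull X₁ h₁ p₁ from b) : FpC X₁ h₁ p₁) :=
            UniformSpace.Completion.coe_add (α := CcFull X₁ h₁ p₁) a b
          rw [h1, map_add, map_add]
        map_smul' := fun c a => by
          have h1 : (((show CcFull X₁ h₁ p₁ from (c • a : Cc X₁ h₁)) : CcFull X₁ h₁ p₁) :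
              FpC X₁ h₁ p₁) = c • ((show CcFull X₁ h₁ p₁ from a) : FpC X₁ h₁ p₁) :=
            UniformSpace.Completion.coe_smul (X := CcFull X₁ h₁ p₁) c a
          rw [h1, map_smul, hσs, RingHom.id_apply] }
    have hΨ : ∀ a : Cc X₁ h₁, Ψ a = σ y (φ ((show CcFull X₁ h₁ p₁ from a : CcFull X₁ h₁ p₁) :
          FpC X₁ h₁ p₁)) := fun a => rfl
    have h1 := rep_zero hm hp₁ hp₂ hne Ψ (fun a b => by
      rw [hΨ, hΨ, hΨ]
      have h1 : (((show CcFull X₁ h₁ p₁ from (a * b : Cc X₁ h₁)) : CcFull X₁ h₁ p₁) :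
          FpC X₁ h₁ p₁) = ((show CcFull X₁ h₁ p₁ from a) : FpC X₁ h₁ p₁)
            * ((show CcFull X₁ h₁ p₁ from b) : FpC X₁ h₁ p₁) :=
        UniformSpace.Completion.coe_mul (α := CcFull X₁ h₁ p₁) a b
      rw [h1, map_mul, map_mul]) ‖Φ‖ (ContinuousLinearMap.opNorm_nonneg Φ) (fun a => by
        rw [hΨ]
        refine (hσc y _).trans ?_
        refine (Φ.le_opNorm _).trans (le_of_eq ?_)
        rw [UniformSpace.Completion.norm_coe]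
        rfl)
    rw [hΨ] at h1
    exact h1
  have he0 : e = 0 := idem_zero ι hι hN σ hσ hσc e he2 hy
  ext b
  have : φ b = e * φ b := by rw [he, ← map_mul, one_mul]
  rw [this, he0, zero_mul]
  rfl

end General

section Spec

variable {X₁ X₂ : Type*} [MetricSpace X₁] [CompactSpace X₁] [Infinite X₁]
  [TopologicalSpace X₂] [CompactSpace X₂] {h₁ : X₁ ≃ₜ X₁} {h₂ : X₂ ≃ₜ X₂}
  {p₁ p₂ : ℝ≥0∞} [Fact (1 ≤ p₁)] [Fact (1 ≤ p₂)]

theorem hom_full_zero (hm : IsMinimalHomeo h₁) (hp₁ : p₁ ≠ ∞) (hp₂ : p₂ ≠ ∞) (hne : p₁ ≠ p₂)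
    (φ : FpC X₁ h₁ p₁ →ₙₐ[ℂ] FpC X₂ h₂ p₂) (hφ : Continuous φ) : φ = 0 := by
  have hb : ∀ (y : X₂) (a : CcFull X₂ h₂ p₂), ‖((orep h₂ p₂ y).integR : CcFull X₂ h₂ p₂ →+* _) a‖
      ≤ ‖a‖ := fun y a => orep_le_full hp₂ y a
  refine hom_zero hm hp₁ hp₂ hne (h₂ := h₂)
    (UniformSpace.Completion.coeRingHom : CcFull X₂ h₂ p₂ →+* FpC X₂ h₂ p₂) ?_ ?_
    (fun y => ext ((orep h₂ p₂ y).integR : CcFull X₂ h₂ p₂ →+* _) (hb y)) ?_ ?_ ?_ φ hφ
  · exact UniformSpace.Completion.denseRange_coe (α := CcFull X₂ h₂ p₂)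
  · intro a
    refine (UniformSpace.Completion.norm_coe (E := CcFull X₂ h₂ p₂) a).le.trans ?_
    refine fullNorm_le' h₂ p₂ a (Finset.sum_nonneg fun _ _ => norm_nonneg _) ?_
    intro Ω _ μ _ r
    exact r.norm_integ_le a
  · intro y a
    exact ext_coe _ (hb y) a
  · intro y b
    exact norm_ext_le _ (hb y) b
  · intro y c b
    exact ext_smul _ (hb y) (fun c a => (orep h₂ p₂ y).integ_smul c a) c b

theorem hom_red_zero (hm : IsMinimalHomeo h₁) (hp₁ : p₁ ≠ ∞) (hp₂ : p₂ ≠ ∞) (hne : p₁ ≠ p₂)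
    (φ : FpC X₁ h₁ p₁ →ₙₐ[ℂ] FrpC X₂ h₂ p₂) (hφ : Continuous φ) : φ = 0 := by
  have hb : ∀ (y : X₂) (a : CcRed X₂ h₂ p₂), ‖((orep h₂ p₂ y).integR : CcRed X₂ h₂ p₂ →+* _) a‖
      ≤ ‖a‖ := fun y a => orep_le_red y a
  refine hom_zero hm hp₁ hp₂ hne (h₂ := h₂)
    (UniformSpace.Completion.coeRingHom : CcRed X₂ h₂ p₂ →+* FrpC X₂ h₂ p₂) ?_ ?_
    (fun y => ext ((orep h₂ p₂ y).integR : CcRed X₂ h₂ p₂ →+* _) (hb y)) ?_ ?_ ?_ φ hφ
  · exact UniformSpace.Completion.denseRange_coe (α := CcRed X₂ h₂ p₂)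
  · intro a
    refine (UniformSpace.Completion.norm_coe (E := CcRed X₂ h₂ p₂) a).le.trans ?_
    refine redNorm_le h₂ p₂ a (Finset.sum_nonneg fun _ _ => norm_nonneg _) ?_
    intro Ω _ μ _ π₀
    exact CovPair.norm_integ_le _ a
  · intro y a
    exact ext_coe _ (hb y) a
  · intro y b
    exact norm_ext_le _ (hb y) b
  · intro y c b
    exact ext_smul _ (hb y) (fun c a => (orep h₂ p₂ y).integ_smul c a) c b

end Spec

end Pool.Agent.H74R4
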