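import Pool.Agent.H74R4.Defs

/-!
# Covariant representations, in the form used in the proofs
-/

open MeasureTheory
open scoped ENNReal

namespace Pool.Agent.H74R4

section Rep

variable {X : Type*} [TopologicalSpace X] [CompactSpace X]

/-- A contractive covariant representation of `(X, h)` on a Banach space `E`: a contractive
nondegenerate (that is, unital) homomorphism `π` of `C(X)` and an invertible isometry `v` with
`v π(f) v⁻¹ = π(f ∘ h⁻¹)`. -/
structure CovRep (X : Type*) [TopologicalSpace X] [CompactSpace X] (h : X ≃ₜ X)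
    (E : Type*) [NormedAddCommGroup E] [NormedSpace ℂ E] where
  π : C(X, ℂ) →ₐ[ℂ] (E →L[ℂ] E)
  v : E ≃ₗᵢ[ℂ] E
  contractive : ∀ f, ‖π f‖ ≤ ‖f‖
  cov : ∀ f ξ, v (π f ξ) = π (act h 1 f) (v ξ)

variable {h : X ≃ₜ X} {E : Type*} [NormedAddCommGroup E] [NormedSpace ℂ E]

/-- The integrated form `a ↦ ∑_n π(a(n)) v^n`. -/
noncomputable def CovRep.integ (r : CovRep X h E) (a : Cc X h) : E →L[ℂ] E :=
  a.toF.sum fun n f =>
    r.π f * ((r.v ^ n : E ≃ₗᵢ[ℂ] E).toContinuousLinearEquiv : E →L[ℂ] E)

end Rep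

section Rep

variable {X : Type*} [TopologicalSpace X] [CompactSpace X] {h : X ≃ₜ X}
  {E : Type*} [NormedAddCommGroup E] [NormedSpace ℂ E]

/-- The operator of the `n`-th power of `v`. -/
noncomputable def CovRep.V (r : CovRep X h E) (n : ℤ) : E →L[ℂ] E :=
  ((r.v ^ n : E ≃ₗᵢ[ℂ] E).toContinuousLinearEquiv : E →L[ℂ] E)

theorem CovRep.V_apply (r : CovRep X h E) (n : ℤ) (ξ : E) :
    r.V n ξ = (r.v ^ n : E ≃ₗᵢ[ℂ] E) ξ := rfl

theorem CovRep.V_zero (r : CovRep X h E) : r.V 0 = 1 := by
  ext ξ; simp [CovRep.V_apply]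

theorem CovRep.V_add (r : CovRep X h E) (m n : ℤ) : r.V (m + n) = r.V m * r.V n := by
  ext ξ
  rw [CovRep.V_apply, zpow_add]
  rfl

theorem CovRep.norm_V_apply (r : CovRep X h E) (n : ℤ) (ξ : E) : ‖r.V n ξ‖ = ‖ξ‖ :=
  (r.v ^ n : E ≃ₗᵢ[ℂ] E).norm_map ξ

theorem CovRep.norm_V_le (r : CovRep X h E) (n : ℤ) : ‖r.V n‖ ≤ 1 :=
  ContinuousLinearMap.opNorm_le_bound _ zero_le_one fun ξ => by
    rw [r.norm_V_apply, one_mul]

theorem CovRep.V_one_pi (r : CovRep X h E) (f : C(X, ℂ)) :
    r.V 1 * r.π f = r.π (act h 1 f) * r.V 1 := by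
  ext ξ
  have := r.cov f ξ
  simpa [CovRep.V_apply] using this

theorem CovRep.V_neg_one_pi (r : CovRep X h E) (f : C(X, ℂ)) :
    r.V (-1) * r.π f = r.π (act h (-1) f) * r.V (-1) := by
  have h1 := r.V_one_pi (act h (-1) f)
  rw [act_act] at h1
  simp only [add_neg_cancel, act_zero'] at h1
  have h2 : r.V (-1) * r.V 1 = 1 := by rw [← r.V_add]; simp [r.V_zero]
  have h3 : r.V 1 * r.V (-1) = 1 := by rw [← r.V_add]; simp [r.V_zero]
  calc r.V (-1) * r.π f = r.V (-1) * (r.π f * r.V 1) * r.V (-1) := by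
        rw [mul_assoc, mul_assoc, h3, mul_one]
    _ = r.V (-1) * (r.V 1 * r.π (act h (-1) f)) * r.V (-1) := by rw [h1]
    _ = r.π (act h (-1) f) * r.V (-1) := by rw [← mul_assoc, h2, one_mul]

theorem CovRep.V_pi (r : CovRep X h E) (n : ℤ) (f : C(X, ℂ)) :
    r.V n * r.π f = r.π (act h n f) * r.V n := by
  induction n using Int.induction_on generalizing f with
  | zero => simp [r.V_zero]
  | succ k ih =>
    rw [add_comm, r.V_add, mul_assoc, ih, ← mul_assoc, r.V_one_pi, act_act, mul_assoc]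
  | pred k ih =>
    rw [sub_eq_add_neg, add_comm, r.V_add, mul_assoc, ih, ← mul_assoc, r.V_neg_one_pi, act_act,
      mul_assoc]

theorem CovRep.integ_single (r : CovRep X h E) (n : ℤ) (f : C(X, ℂ)) :
    r.integ (Cc.single h n f) = r.π f * r.V n :=
  Finsupp.sum_single_index (h := fun n f =>
    r.π f * ((r.v ^ n : E ≃ₗᵢ[ℂ] E).toContinuousLinearEquiv : E →L[ℂ] E)) (by simp)

theorem CovRep.integ_zero (r : CovRep X h E) : r.integ 0 = 0 :=
  Finsupp.sum_zero_index

theorem CovRep.integ_add (r : CovRep X h E) (a b : Cc X h) :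
    r.integ (a + b) = r.integ a + r.integ b :=
  Finsupp.sum_add_index' (h := fun n f =>
    r.π f * ((r.v ^ n : E ≃ₗᵢ[ℂ] E).toContinuousLinearEquiv : E →L[ℂ] E))
    (by simp) (by intro n f g; simp [add_mul])

theorem CovRep.integ_smul (r : CovRep X h E) (c : ℂ) (a : Cc X h) :
    r.integ (c • a) = c • r.integ a := by
  induction a using Cc.induction with
  | h0 => simp [r.integ_zero]
  | hadd a a' ha ha' => simp only [smul_add, r.integ_add, ha, ha']
  | hs k f => rw [Cc.smul_single, r.integ_single, r.integ_single, map_smul, smul_mul_assoc]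

theorem CovRep.integ_mul (r : CovRep X h E) (a b : Cc X h) :
    r.integ (a * b) = r.integ a * r.integ b := by
  induction a using Cc.induction with
  | h0 => simp [r.integ_zero]
  | hadd a a' ha ha' => simp only [add_mul, r.integ_add, ha, ha']
  | hs k f =>
    induction b using Cc.induction with
    | h0 => simp [r.integ_zero]
    | hadd b b' hb hb' => simp only [mul_add, r.integ_add, hb, hb']
    | hs m g =>
      rw [Cc.single_mul_single, r.integ_single, r.integ_single, r.integ_single, map_mul,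
        r.V_add, mul_assoc, mul_assoc, ← mul_assoc (r.V k), r.V_pi, mul_assoc]

theorem CovRep.integ_one (r : CovRep X h E) : r.integ 1 = 1 := by
  rw [Cc.one_def, r.integ_single, map_one, r.V_zero, one_mul]

theorem CovRep.integ_neg (r : CovRep X h E) (a : Cc X h) : r.integ (-a) = -r.integ a := by
  have := r.integ_smul (-1) a
  simpa using this

theorem CovRep.norm_integ_le (r : CovRep X h E) (a : Cc X h) :
    ‖r.integ a‖ ≤ a.toF.sum fun _ f => ‖f‖ := by
  refine (norm_sum_le _ _).trans (Finset.sum_le_sum fun n _ => ?_)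
  refine (norm_mul_le _ _).trans ?_
  calc _ ≤ ‖a.toF n‖ * 1 :=
        mul_le_mul (r.contractive _) (r.norm_V_le n) (norm_nonneg _) (norm_nonneg _)
    _ = _ := mul_one _

end Rep

section Conv

variable {X : Type*} [TopologicalSpace X] [CompactSpace X] {h : X ≃ₜ X}
  {E : Type*} [NormedAddCommGroup E] [NormedSpace ℂ E]

/-- Bundled algebra homomorphism. -/
noncomputable def CRep.toAlg (π : CRep X E) : C(X, ℂ) →ₐ[ℂ] (E →L[ℂ] E) where
  toFun := π.op
  map_one' := π.op_one
  map_mul' := π.op_mul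
  map_zero' := by
    have := π.op_smul 0 0
    simpa using this
  map_add' := π.op_add
  commutes' c := by
    rw [Algebra.algebraMap_eq_smul_one, Algebra.algebraMap_eq_smul_one, π.op_smul, π.op_one]
    rfl

/-- Unbundled contractive representation. -/
noncomputable def CRep.ofAlg (π : C(X, ℂ) →ₐ[ℂ] (E →L[ℂ] E)) (hπ : ∀ f, ‖π f‖ ≤ ‖f‖) :
    CRep X E where
  op := π
  op_one := map_one π
  op_mul := map_mul π
  op_add := map_add π
  op_smul := map_smul π
  norm_op := hπ

/-- Conversion. -/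
noncomputable def CovPair.toRep (r : CovPair X h E) : CovRep X h E where
  π := r.π.toAlg
  v := r.v
  contractive := r.π.norm_op
  cov := r.cov

/-- Conversion. -/
noncomputable def CovRep.toPair (r : CovRep X h E) : CovPair X h E where
  π := CRep.ofAlg r.π r.contractive
  v := r.v
  cov := r.cov

theorem CovPair.toRep_integ (r : CovPair X h E) (a : Cc X h) : r.toRep.integ a = r.integ a := rfl

theorem CovRep.toPair_integ (r : CovRep X h E) (a : Cc X h) : r.toPair.integ a = r.integ a := rfl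

theorem CovPair.norm_integ_le (r : CovPair X h E) (a : Cc X h) :
    ‖r.integ a‖ ≤ a.toF.sum fun _ f => ‖f‖ := r.toRep.norm_integ_le a

theorem CovPair.integ_zero (r : CovPair X h E) : r.integ 0 = 0 := r.toRep.integ_zero

theorem CovPair.integ_add (r : CovPair X h E) (a b : Cc X h) :
    r.integ (a + b) = r.integ a + r.integ b := r.toRep.integ_add a b

theorem CovPair.integ_smul (r : CovPair X h E) (c : ℂ) (a : Cc X h) :
    r.integ (c • a) = c • r.integ a := r.toRep.integ_smul c a

theorem CovPair.integ_neg (r : CovPair X h E) (a : Cc X h) :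
    r.integ (-a) = -r.integ a := r.toRep.integ_neg a

theorem CovPair.norm_integ_mul (r : CovPair X h E) (a b : Cc X h) :
    ‖r.integ (a * b)‖ ≤ ‖r.integ a‖ * ‖r.integ b‖ := by
  have h1 : r.integ (a * b) = r.integ a * r.integ b := r.toRep.integ_mul a b
  rw [h1]
  exact norm_mul_le _ _

end Conv

end Pool.Agent.H74R4
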