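import Mathlib

/-!
# Pointwise inequalities
-/

namespace Pool.Agent.H74R4

theorem rpow_add_lt_of_one_lt {a b r : ℝ} (ha : 0 < a) (hb : 0 < b) (hr : 1 < r) :
    a ^ r + b ^ r < (a + b) ^ r := by
  have hs : 0 < a + b := by positivity
  have e : ∀ t : ℝ, 0 < t → t ^ r = t * t ^ (r - 1) := fun t ht => by
    rw [← Real.rpow_one_add' ht.le (by linarith)]
    congr 1; ring
  have h1 : a ^ (r - 1) < (a + b) ^ (r - 1) :=
    Real.rpow_lt_rpow ha.le (by linarith) (by linarith)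
  have h2 : b ^ (r - 1) < (a + b) ^ (r - 1) :=
    Real.rpow_lt_rpow hb.le (by linarith) (by linarith)
  rw [e a ha, e b hb, e (a + b) hs, add_mul]
  exact add_lt_add (mul_lt_mul_of_pos_left h1 ha) (mul_lt_mul_of_pos_left h2 hb)

theorem lt_rpow_add_of_lt_one {a b r : ℝ} (ha : 0 < a) (hb : 0 < b) (hr0 : 0 < r) (hr : r < 1) :
    (a + b) ^ r < a ^ r + b ^ r := by
  have hs : 0 < a + b := by positivity
  have e : ∀ t : ℝ, 0 < t → t ^ r = t * t ^ (r - 1) := fun t ht => by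
    rw [← Real.rpow_one_add' ht.le (by linarith)]
    congr 1; ring
  have h1 : (a + b) ^ (r - 1) < a ^ (r - 1) :=
    Real.rpow_lt_rpow_of_neg ha (by linarith) (by linarith)
  have h2 : (a + b) ^ (r - 1) < b ^ (r - 1) :=
    Real.rpow_lt_rpow_of_neg hb (by linarith) (by linarith)
  rw [e a ha, e b hb, e (a + b) hs, add_mul]
  exact add_lt_add (mul_lt_mul_of_pos_left h1 ha) (mul_lt_mul_of_pos_left h2 hb)

theorem norm_rpow_eq_sq (z : ℂ) (q : ℝ) : ‖z‖ ^ q = (‖z‖ ^ 2) ^ (q / 2) := by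
  rw [← Real.rpow_natCast, ← Real.rpow_mul (norm_nonneg _)]
  congr 1
  push_cast
  ring

theorem par (z w : ℂ) : ‖z + w‖ ^ 2 + ‖z - w‖ ^ 2 = 2 * (‖z‖ ^ 2 + ‖w‖ ^ 2) := by
  have := parallelogram_law_with_norm ℝ z w
  nlinarith [this]

/-- Clarkson's inequality, `q > 2`. -/
theorem clarkson_gt {q : ℝ} (hq : 2 < q) (z w : ℂ) :
    2 * ‖z‖ ^ q + 2 * ‖w‖ ^ q ≤ ‖z + w‖ ^ q + ‖z - w‖ ^ q ∧
    (2 * ‖z‖ ^ q + 2 * ‖w‖ ^ q = ‖z + w‖ ^ q + ‖z - w‖ ^ q → z = 0 ∨ w = 0) := by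
  set a := ‖z‖ ^ 2 with ha
  set b := ‖w‖ ^ 2 with hb
  set s := ‖z + w‖ ^ 2 with hs
  set t := ‖z - w‖ ^ 2 with ht
  have hr : 1 < q / 2 := by linarith
  have hst : s + t = 2 * (a + b) := par z w
  have hconv : (a + b) ^ (q / 2) ≤ (s ^ (q / 2) + t ^ (q / 2)) / 2 := by
    have := (convexOn_rpow hr.le).2 (show s ∈ Set.Ici (0 : ℝ) by simp [hs])
      (show t ∈ Set.Ici (0 : ℝ) by simp [ht]) (show (0 : ℝ) ≤ 1 / 2 by norm_num)
      (show (0 : ℝ) ≤ 1 / 2 by norm_num) (by norm_num)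
    simp only [smul_eq_mul] at this
    rw [show 1 / 2 * s + 1 / 2 * t = a + b by linarith] at this
    linarith
  rw [norm_rpow_eq_sq z, norm_rpow_eq_sq w, norm_rpow_eq_sq (z + w), norm_rpow_eq_sq (z - w),
    ← ha, ← hb, ← hs, ← ht]
  by_cases hz : z = 0
  · have : a = 0 := by simp [ha, hz]
    rw [this, zero_add] at hconv
    rw [this, Real.zero_rpow (by linarith)]
    exact ⟨by linarith, fun _ => Or.inl hz⟩
  by_cases hw : w = 0
  · have : b = 0 := by simp [hb, hw]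
    rw [this, add_zero] at hconv
    rw [this, Real.zero_rpow (by linarith)]
    exact ⟨by linarith, fun _ => Or.inr hw⟩
  have ha0 : 0 < a := by positivity
  have hb0 : 0 < b := by positivity
  have := rpow_add_lt_of_one_lt ha0 hb0 hr
  exact ⟨by linarith, fun h => by linarith⟩

/-- Clarkson's inequality, `0 < q < 2`. -/
theorem clarkson_lt {q : ℝ} (hq0 : 0 < q) (hq : q < 2) (z w : ℂ) :
    ‖z + w‖ ^ q + ‖z - w‖ ^ q ≤ 2 * ‖z‖ ^ q + 2 * ‖w‖ ^ q ∧
    (2 * ‖z‖ ^ q + 2 * ‖w‖ ^ q = ‖z + w‖ ^ q + ‖z - w‖ ^ q → z = 0 ∨ w = 0) := by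
  set a := ‖z‖ ^ 2 with ha
  set b := ‖w‖ ^ 2 with hb
  set s := ‖z + w‖ ^ 2 with hs
  set t := ‖z - w‖ ^ 2 with ht
  have hr : q / 2 < 1 := by linarith
  have hst : s + t = 2 * (a + b) := par z w
  have hconv : (s ^ (q / 2) + t ^ (q / 2)) / 2 ≤ (a + b) ^ (q / 2) := by
    have := (Real.concaveOn_rpow (show 0 ≤ q / 2 by linarith) hr.le).2
      (show s ∈ Set.Ici (0 : ℝ) by simp [hs])
      (show t ∈ Set.Ici (0 : ℝ) by simp [ht]) (show (0 : ℝ) ≤ 1 / 2 by norm_num)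
      (show (0 : ℝ) ≤ 1 / 2 by norm_num) (by norm_num)
    simp only [smul_eq_mul] at this
    rw [show 1 / 2 * s + 1 / 2 * t = a + b by linarith] at this
    linarith
  rw [norm_rpow_eq_sq z, norm_rpow_eq_sq w, norm_rpow_eq_sq (z + w), norm_rpow_eq_sq (z - w),
    ← ha, ← hb, ← hs, ← ht]
  by_cases hz : z = 0
  · have : a = 0 := by simp [ha, hz]
    rw [this, zero_add] at hconv
    rw [this, Real.zero_rpow (by linarith)]
    exact ⟨by linarith, fun _ => Or.inl hz⟩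
  by_cases hw : w = 0
  · have : b = 0 := by simp [hb, hw]
    rw [this, add_zero] at hconv
    rw [this, Real.zero_rpow (by linarith)]
    exact ⟨by linarith, fun _ => Or.inr hw⟩
  have ha0 : 0 < a := by positivity
  have hb0 : 0 < b := by positivity
  have := lt_rpow_add_of_lt_one ha0 hb0 (show 0 < q / 2 by linarith) hr
  exact ⟨by linarith, fun h => by linarith⟩

/-- The unimodular constant `√(3/4) + i/2`. -/
noncomputable def cc : ℂ := ⟨Real.sqrt (3 / 4), 1 / 2⟩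

theorem norm_cc : ‖cc‖ = 1 := by
  rw [Complex.norm_eq_sqrt_sq_add_sq, Real.sqrt_eq_one]
  simp only [cc]
  rw [Real.sq_sqrt (by norm_num)]
  norm_num

theorem re_lt_cc : cc ≠ 1 := by
  intro h
  have := congrArg Complex.im h
  simp [cc] at this

/-- Two complex numbers whose combinations keep their modulus under a rotation of the first
are `0`. -/
theorem eq_zero_of_rot {a b : ℂ} (h1 : ‖cc * a + b‖ = ‖a + b‖)
    (h2 : ‖cc * a + Complex.I * b‖ = ‖a + Complex.I * b‖) : a = 0 ∨ b = 0 := by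
  have key : ∀ z w : ℂ, ‖z + w‖ ^ 2 = ‖z‖ ^ 2 + 2 * (z * (starRingEnd ℂ) w).re + ‖w‖ ^ 2 := by
    intro z w
    rw [← Complex.normSq_eq_norm_sq, ← Complex.normSq_eq_norm_sq, ← Complex.normSq_eq_norm_sq,
      Complex.normSq_add]
    ring
  have k1 : (cc * a * (starRingEnd ℂ) b).re = (a * (starRingEnd ℂ) b).re := by
    have e := congrArg (· ^ 2) h1
    rw [key, key, norm_mul, norm_cc, one_mul] at e
    linarith
  have k2 : (cc * a * (starRingEnd ℂ) (Complex.I * b)).re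
      = (a * (starRingEnd ℂ) (Complex.I * b)).re := by
    have e := congrArg (· ^ 2) h2
    rw [key, key, norm_mul cc a, norm_cc, one_mul] at e
    linarith
  have k3 : (cc * a * (starRingEnd ℂ) b).im = (a * (starRingEnd ℂ) b).im := by
    have e1 : cc * a * (starRingEnd ℂ) (Complex.I * b)
        = -Complex.I * (cc * a * (starRingEnd ℂ) b) := by
      rw [map_mul, Complex.conj_I]; ring
    have e2 : a * (starRingEnd ℂ) (Complex.I * b) = -Complex.I * (a * (starRingEnd ℂ) b) := by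
      rw [map_mul, Complex.conj_I]; ring
    rw [e1, e2] at k2
    simpa using k2
  have k4 : cc * a * (starRingEnd ℂ) b = a * (starRingEnd ℂ) b := Complex.ext k1 k3
  have k5 : (cc - 1) * (a * (starRingEnd ℂ) b) = 0 := by
    linear_combination k4
  rcases mul_eq_zero.1 k5 with h | h
  · exact absurd (sub_eq_zero.1 h) re_lt_cc
  · rcases mul_eq_zero.1 h with h | h
    · exact Or.inl h
    · exact Or.inr (by simpa using h)

end Pool.Agent.H74R4
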