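import Pool.Agent.H74R4.LpDisj
import Pool.Agent.H74R4.Bridge

/-!
# Norm estimates in `F^p`
-/

open MeasureTheory
open scoped ENNReal

namespace Pool.Agent.H74R4

section Rot

variable {X : Type*} [TopologicalSpace X] [CompactSpace X] [NormalSpace X]

theorem exists_rot {K L : Set X} (hK : IsClosed K) (hL : IsClosed L) (hd : Disjoint K L) :
    ∃ u : C(X, ℂ), (∀ x, ‖u x‖ = 1) ∧ (∀ x ∈ K, u x = cc) ∧ (∀ x ∈ L, u x = 1) ∧
      ‖u - 1‖ < 1 := by
  obtain ⟨χ, h0, h1, h01⟩ := exists_continuous_zero_one_of_isClosed hL hK hd.symm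
  have hsq : ∀ x, (χ x / 2) ^ 2 ≤ 1 / 4 := fun x => by nlinarith [(h01 x).1, (h01 x).2]
  set u : C(X, ℂ) := ⟨fun x => (Real.sqrt (1 - (χ x / 2) ^ 2) : ℂ) + Complex.I * ((χ x / 2 : ℝ) : ℂ),
    by fun_prop⟩ with hu
  have hux : ∀ x, u x = ⟨Real.sqrt (1 - (χ x / 2) ^ 2), χ x / 2⟩ := fun x => by
    apply Complex.ext <;> simp [hu]
  refine ⟨u, fun x => ?_, fun x hx => ?_, fun x hx => ?_, ?_⟩
  · rw [hux, Complex.norm_eq_sqrt_sq_add_sq, Real.sqrt_eq_one]
    simp only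
    rw [Real.sq_sqrt (by linarith [hsq x])]
    ring
  · rw [hux, h1 hx, cc]
    norm_num
  · rw [hux, h0 hx]
    apply Complex.ext <;> simp
  · have hle : ‖u - 1‖ ≤ 3 / 4 := by
      rw [ContinuousMap.norm_le _ (by norm_num)]
      intro x
      rw [ContinuousMap.sub_apply, ContinuousMap.one_apply, hux, Complex.norm_eq_sqrt_sq_add_sq]
      apply Real.sqrt_le_iff.2
      refine ⟨by norm_num, ?_⟩
      simp only [Complex.sub_re, Complex.sub_im, Complex.one_re, Complex.one_im]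
      have h2 := hsq x
      have h3 : 1 - (χ x / 2) ^ 2 ≤ Real.sqrt (1 - (χ x / 2) ^ 2) := by
        apply Real.le_sqrt_of_sq_le
        nlinarith [sq_nonneg (χ x / 2)]
      have h4 : Real.sqrt (1 - (χ x / 2) ^ 2) ^ 2 = 1 - (χ x / 2) ^ 2 :=
        Real.sq_sqrt (by linarith)
      nlinarith
    linarith

variable {Ω : Type*} [MeasurableSpace Ω] {μ : Measure Ω} {p : ℝ≥0∞} [Fact (1 ≤ p)]

theorem pi_isom (π : C(X, ℂ) →ₐ[ℂ] (Lp ℂ p μ →L[ℂ] Lp ℂ p μ)) (hπ : ∀ f, ‖π f‖ ≤ ‖f‖)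
    {u : C(X, ℂ)} (hu : ∀ x, ‖u x‖ = 1) (f : Lp ℂ p μ) : ‖π u f‖ = ‖f‖ := by
  have hle : ∀ w : C(X, ℂ), (∀ x, ‖w x‖ = 1) → ∀ g : Lp ℂ p μ, ‖π w g‖ ≤ ‖g‖ := by
    intro w hw g
    refine ((π w).le_opNorm g).trans ?_
    have : ‖w‖ ≤ 1 := (ContinuousMap.norm_le _ zero_le_one).2 fun x => (hw x).le
    calc _ ≤ 1 * ‖g‖ := by gcongr; exact (hπ w).trans this
      _ = _ := one_mul _
  refine le_antisymm (hle u hu f) ?_
  have h1 : star u * u = 1 := by
    ext x
    have := Complex.normSq_eq_norm_sq (u x)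
    rw [hu x] at this
    simp only [ContinuousMap.mul_apply, ContinuousMap.star_apply, ContinuousMap.one_apply]
    have h2 : star (u x) * u x = (Complex.normSq (u x) : ℂ) := by
      rw [mul_comm]; exact Complex.mul_conj (u x)
    rw [h2, this]; norm_num
  have h2 : f = π (star u) (π u f) := by
    have : (π (star u) * π u) f = f := by rw [← map_mul, h1, map_one]; rfl
    exact this.symm
  calc ‖f‖ = ‖π (star u) (π u f)‖ := by rw [← h2]
    _ ≤ _ := hle (star u) (fun x => by simp [hu x]) _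

theorem norm_add_of_sep (hp : p ≠ ∞) (π : C(X, ℂ) →ₐ[ℂ] (Lp ℂ p μ →L[ℂ] Lp ℂ p μ))
    (hπ : ∀ f, ‖π f‖ ≤ ‖f‖) {K L : Set X} (hK : IsClosed K) (hL : IsClosed L)
    (hd : Disjoint K L) {a b : Lp ℂ p μ}
    (ha : ∀ u : C(X, ℂ), (∀ x ∈ K, u x = cc) → π u a = cc • a)
    (hb : ∀ u : C(X, ℂ), (∀ x ∈ L, u x = 1) → π u b = b) :
    ‖a + b‖ ^ p.toReal = ‖a‖ ^ p.toReal + ‖b‖ ^ p.toReal := by
  obtain ⟨u, hu, huK, huL, hu1⟩ := exists_rot hK hL hd
  refine norm_add_of_rot hp (π u) (pi_isom π hπ hu) ?_ (ha u huK) (hb u huL)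
  have : π u - 1 = π (u - 1) := by rw [map_sub, map_one]
  rw [this]
  exact (hπ _).trans_lt hu1

theorem sum_norm_rpow {ι : Type*} (hp : p ≠ ∞) (π : C(X, ℂ) →ₐ[ℂ] (Lp ℂ p μ →L[ℂ] Lp ℂ p μ))
    (hπ : ∀ f, ‖π f‖ ≤ ‖f‖) (s : Finset ι) (K : ι → Set X) (hK : ∀ i ∈ s, IsClosed (K i))
    (hd : ∀ i ∈ s, ∀ j ∈ s, i ≠ j → Disjoint (K i) (K j)) (f : ι → C(X, ℂ))
    (hf : ∀ i ∈ s, ∀ x, x ∉ K i → f i x = 0) (ξ : ι → Lp ℂ p μ) :
    ‖∑ i ∈ s, π (f i) (ξ i)‖ ^ p.toReal = ∑ i ∈ s, ‖π (f i) (ξ i)‖ ^ p.toReal := by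
  classical
  have hq : 0 < p.toReal := by linarith [one_le_toReal hp]
  induction s using Finset.induction_on with
  | empty => simp [Real.zero_rpow hq.ne']
  | insert i s hi ih =>
    rw [Finset.sum_insert hi, Finset.sum_insert hi,
      ← ih (fun j hj => hK j (Finset.mem_insert_of_mem hj))
        (fun j hj k hk => hd j (Finset.mem_insert_of_mem hj) k (Finset.mem_insert_of_mem hk))
        (fun j hj => hf j (Finset.mem_insert_of_mem hj))]
    refine norm_add_of_sep hp π hπ (K := K i) (L := ⋃ j ∈ s, K j)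
      (hK i (Finset.mem_insert_self i s)) ?_ ?_ ?_ ?_
    · exact s.finite_toSet.isClosed_biUnion fun j hj =>
        hK j (Finset.mem_insert_of_mem (by simpa using hj))
    · rw [Set.disjoint_iUnion₂_right]
      intro j hj
      refine hd i (Finset.mem_insert_self i s) j (Finset.mem_insert_of_mem hj) ?_
      rintro rfl
      exact hi hj
    · intro u hu
      have : u * f i = cc • f i := by
        ext x
        by_cases hx : x ∈ K i
        · simp [hu x hx]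
        · simp [hf i (Finset.mem_insert_self i s) x hx]
      change (π u * π (f i)) (ξ i) = _
      rw [← map_mul, this, map_smul]
      rfl
    · intro u hu
      rw [map_sum]
      refine Finset.sum_congr rfl fun j hj => ?_
      have : u * f j = f j := by
        ext x
        by_cases hx : x ∈ K j
        · simp [hu x (Set.mem_biUnion (by simpa using hj) hx)]
        · simp [hf j (Finset.mem_insert_of_mem hj) x hx]
      change (π u * π (f j)) (ξ j) = _
      rw [← map_mul, this]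

end Rot

end Pool.Agent.H74R4
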