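import Pool.Agent.H74R4.Source

/-!
# The orbit representations on `ℓ^p(ℤ)` are controlled by both norms
-/

open MeasureTheory
open scoped ENNReal

namespace Pool.Agent.H74R4

section Compare

variable {X : Type*} [TopologicalSpace X] [CompactSpace X] {h : X ≃ₜ X}
  {E : Type*} [NormedAddCommGroup E] [NormedSpace ℂ E]
  {E' : Type*} [NormedAddCommGroup E'] [NormedSpace ℂ E']

theorem inter_V (r : CovRep X h E) (r' : CovRep X h E') (J : E →ₗᵢ[ℂ] E')
    (hv : ∀ ξ, J (r.v ξ) = r'.v (J ξ)) (n : ℤ) (ξ : E) : J (r.V n ξ) = r'.V n (J ξ) := by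
  induction n using Int.induction_on generalizing ξ with
  | zero => simp [CovRep.V_zero]
  | succ k ih =>
    rw [add_comm, r.V_add, r'.V_add]
    change J (r.V 1 (r.V k ξ)) = r'.V 1 (r'.V k (J ξ))
    rw [← ih]
    have := hv (r.V k ξ)
    simpa [CovRep.V_apply] using this
  | pred k ih =>
    rw [sub_eq_add_neg, add_comm, r.V_add, r'.V_add]
    change J (r.V (-1) (r.V (-k) ξ)) = r'.V (-1) (r'.V (-k) (J ξ))
    rw [← ih]
    have h1 : J (r.V (-k) ξ) = r'.V 1 (J (r.V (-1) (r.V (-k) ξ))) := by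
      have h2 := hv (r.V (-1) (r.V (-k) ξ))
      have h3 : r.v (r.V (-1) (r.V (-k) ξ)) = r.V (-k) ξ := by
        simp [CovRep.V_apply]
      rw [h3] at h2
      rw [h2]
      simp [CovRep.V_apply]
    have h4 : ∀ w, r'.V (-1) (r'.V 1 w) = w := fun w => by
      change (r'.V (-1) * r'.V 1) w = w
      rw [← r'.V_add]
      simp [r'.V_zero]
    rw [h1, h4]

theorem inter_integ (r : CovRep X h E) (r' : CovRep X h E') (J : E →ₗᵢ[ℂ] E')
    (hπ : ∀ f ξ, J (r.π f ξ) = r'.π f (J ξ)) (hv : ∀ ξ, J (r.v ξ) = r'.v (J ξ))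
    (a : Cc X h) (ξ : E) : J (r.integ a ξ) = r'.integ a (J ξ) := by
  induction a using Cc.induction with
  | h0 => simp [CovRep.integ_zero]
  | hadd a b ha hb =>
    rw [r.integ_add, r'.integ_add]
    change J (r.integ a ξ + r.integ b ξ) = r'.integ a (J ξ) + r'.integ b (J ξ)
    rw [map_add, ha, hb]
  | hs n f =>
    rw [r.integ_single, r'.integ_single]
    change J (r.π f (r.V n ξ)) = r'.π f (r'.V n (J ξ))
    rw [hπ, inter_V r r' J hv]

theorem norm_integ_le_of_inter (r : CovRep X h E) (r' : CovRep X h E') (J : E →ₗᵢ[ℂ] E')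
    (hπ : ∀ f ξ, J (r.π f ξ) = r'.π f (J ξ)) (hv : ∀ ξ, J (r.v ξ) = r'.v (J ξ))
    (a : Cc X h) : ‖r.integ a‖ ≤ ‖r'.integ a‖ := by
  refine ContinuousLinearMap.opNorm_le_bound _ (norm_nonneg _) fun ξ => ?_
  rw [← J.norm_map (r.integ a ξ), inter_integ r r' J hπ hv, ← J.norm_map ξ]
  exact ContinuousLinearMap.le_opNorm _ _

/-- Transport of a covariant representation. -/
noncomputable def CovRep.transport (r : CovRep X h E) (Φ : E ≃ₗᵢ[ℂ] E') : CovRep X h E' where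
  π :=
    { toFun := fun f => (Φ.toContinuousLinearEquiv : E →L[ℂ] E') ∘L r.π f ∘L
        (Φ.symm.toContinuousLinearEquiv : E' →L[ℂ] E)
      map_one' := by ext ξ; simp
      map_mul' := fun f g => by ext ξ; simp
      map_zero' := by ext ξ; simp
      map_add' := fun f g => by ext ξ; simp
      commutes' := fun c => by
        ext ξ
        simp [Algebra.algebraMap_eq_smul_one] }
  v := (Φ.symm.trans r.v).trans Φ
  contractive f := by
    refine ContinuousLinearMap.opNorm_le_bound _ (norm_nonneg _) fun ξ => ?_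
    change ‖Φ (r.π f (Φ.symm ξ))‖ ≤ ‖f‖ * ‖ξ‖
    rw [Φ.norm_map, ← Φ.symm.norm_map ξ]
    exact ((r.π f).le_opNorm _).trans (by gcongr; exact r.contractive f)
  cov f ξ := by
    change Φ (r.v (Φ.symm (Φ (r.π f (Φ.symm ξ))))) = Φ (r.π (act h 1 f)
      (Φ.symm (Φ (r.v (Φ.symm ξ)))))
    rw [Φ.symm_apply_apply, Φ.symm_apply_apply, r.cov]

theorem CovRep.norm_transport (r : CovRep X h E) (Φ : E ≃ₗᵢ[ℂ] E') (a : Cc X h) :
    ‖r.integ a‖ ≤ ‖(r.transport Φ).integ a‖ := by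
  refine norm_integ_le_of_inter r (r.transport Φ) Φ.toLinearIsometry ?_ ?_ a
  · intro f ξ
    change Φ (r.π f ξ) = Φ (r.π f (Φ.symm (Φ ξ)))
    rw [Φ.symm_apply_apply]
  · intro ξ
    change Φ (r.v ξ) = Φ (r.v (Φ.symm (Φ ξ)))
    rw [Φ.symm_apply_apply]

end Compare

section Scal

variable {X : Type*} [TopologicalSpace X] [CompactSpace X]

/-- The scalar representation `f ↦ f(y)`. -/
noncomputable def scal (y : X) (E : Type*) [NormedAddCommGroup E] [NormedSpace ℂ E] :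
    C(X, ℂ) →ₐ[ℂ] (E →L[ℂ] E) :=
  (Algebra.ofId ℂ (E →L[ℂ] E)).comp (ContinuousMap.evalAlgHom ℂ ℂ y)

theorem scal_apply (y : X) (E : Type*) [NormedAddCommGroup E] [NormedSpace ℂ E] (f : C(X, ℂ))
    (ξ : E) : scal y E f ξ = f y • ξ := by
  simp [scal, Algebra.ofId_apply, Algebra.algebraMap_eq_smul_one]

theorem norm_scal_le (y : X) (E : Type*) [NormedAddCommGroup E] [NormedSpace ℂ E]
    (f : C(X, ℂ)) : ‖scal y E f‖ ≤ ‖f‖ := by
  refine ContinuousLinearMap.opNorm_le_bound _ (norm_nonneg _) fun ξ => ?_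
  rw [scal_apply, norm_smul]
  gcongr
  exact f.norm_coe_le_norm y

/-- The orbit representation of the point `y` on `ℓ^p(ℤ)`. -/
noncomputable def orep (h : X ≃ₜ X) (p : ℝ≥0∞) [Fact (1 ≤ p)] (y : X) :
    CovRep X h (lp (fun _ : ℤ => ℂ) p) :=
  regular h p (scal y ℂ) (norm_scal_le y ℂ)

variable {h : X ≃ₜ X} {p : ℝ≥0∞} [Fact (1 ≤ p)]

theorem regular_pi_apply {E : Type*} [NormedAddCommGroup E] [NormedSpace ℂ E]
    (π₀ : C(X, ℂ) →ₐ[ℂ] (E →L[ℂ] E)) (hπ : ∀ f, ‖π₀ f‖ ≤ ‖f‖) (f : C(X, ℂ))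
    (ξ : lp (fun _ : ℤ => E) p) (n : ℤ) :
    (regular h p π₀ hπ).π f ξ n = π₀ (act h (-n) f) (ξ n) := rfl

theorem regular_v_apply {E : Type*} [NormedAddCommGroup E] [NormedSpace ℂ E]
    (π₀ : C(X, ℂ) →ₐ[ℂ] (E →L[ℂ] E)) (hπ : ∀ f, ‖π₀ f‖ ≤ ‖f‖)
    (ξ : lp (fun _ : ℤ => E) p) (n : ℤ) :
    (regular h p π₀ hπ).v ξ n = ξ (n - 1) := rfl

theorem regular_V_apply {E : Type*} [NormedAddCommGroup E] [NormedSpace ℂ E]
    (π₀ : C(X, ℂ) →ₐ[ℂ] (E →L[ℂ] E)) (hπ : ∀ f, ‖π₀ f‖ ≤ ‖f‖) (k : ℤ)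
    (ξ : lp (fun _ : ℤ => E) p) (n : ℤ) :
    (regular h p π₀ hπ).V k ξ n = ξ (n - k) := by
  set r := regular h p π₀ hπ with hr
  have hv : ∀ (ξ : lp (fun _ : ℤ => E) p) n, r.V 1 ξ n = ξ (n - 1) := fun ξ n => by
    rw [CovRep.V_apply, zpow_one]; rfl
  induction k using Int.induction_on generalizing ξ n with
  | zero => rw [r.V_zero, sub_zero]; rfl
  | succ k ih =>
    rw [add_comm, r.V_add]
    change r.V 1 (r.V k ξ) n = _
    rw [hv, ih, sub_sub]
  | pred k ih =>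
    have h1 : r.V (-k) = r.V 1 * r.V (-k - 1) := by
      rw [← r.V_add]; congr 1; ring
    have h2 : r.V (-k) ξ (n + 1) = r.V (-k - 1) ξ n := by
      rw [h1]
      change r.V 1 (r.V (-k - 1) ξ) (n + 1) = _
      rw [hv, add_sub_cancel_right]
    rw [← h2, ih, show n + 1 - -(k : ℤ) = n - (-k - 1) by ring]

/-- The coefficients are seen by the orbit representations. -/
theorem orep_coeff (y : X) (a : Cc X h) (n : ℤ) :
    (orep h p y).integ a (lp.single p 0 1) n = a.coeff n ((h ^ n : X ≃ₜ X) y) := by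
  induction a using Cc.induction with
  | h0 => rw [CovRep.integ_zero]; rfl
  | hadd a b ha hb =>
    rw [CovRep.integ_add]
    change ((orep h p y).integ a (lp.single p 0 1) + (orep h p y).integ b (lp.single p 0 1) :
      lp (fun _ : ℤ => ℂ) p) n = _
    rw [lp.coeFn_add, Pi.add_apply, ha, hb]
    rfl
  | hs k f =>
    rw [CovRep.integ_single]
    change (orep h p y).π f ((orep h p y).V k (lp.single p 0 1)) n = _
    unfold orep
    rw [regular_pi_apply, scal_apply, regular_V_apply, act_apply, neg_neg]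
    change _ = (Finsupp.single k f : ℤ →₀ C(X, ℂ)) n ((h ^ n : X ≃ₜ X) y)
    by_cases hn : k = n
    · subst hn
      simp
    · rw [Finsupp.single_eq_of_ne (Ne.symm hn), lp.single_apply_ne _ _ _ (by
        intro h0; apply hn; omega)]
      simp

theorem coeff_le (y : X) (a : Cc X h) (n : ℤ) :
    ‖a.coeff n ((h ^ n : X ≃ₜ X) y)‖ ≤ ‖(orep h p y).integ a‖ := by
  rw [← orep_coeff (p := p) y a n]
  refine (lp.norm_apply_le_norm (p_ne_zero p) _ n).trans ?_
  refine (ContinuousLinearMap.le_opNorm _ _).trans ?_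
  have : ‖(lp.single p 0 1 : lp (fun _ : ℤ => ℂ) p)‖ = 1 := by
    have h1 : (0 : ℝ≥0∞) < p := pos_iff_ne_zero.2 (p_ne_zero p)
    rw [lp.norm_single h1]
    simp
  rw [this, mul_one]

end Scal

end Pool.Agent.H74R4
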