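import Pool.Agent.H74R4.Tgt1

/-!
# Both norms dominate the orbit representations
-/

open MeasureTheory
open scoped ENNReal

namespace Pool.Agent.H74R4

variable {p : ℝ≥0∞} [Fact (1 ≤ p)]

section Count

theorem memLp_count (hp : p ≠ ∞) (ξ : lp (fun _ : ℤ => ℂ) p) :
    MemLp (fun n => ξ n) p (Measure.count : Measure ℤ) := by
  have hq : 0 < p.toReal := by linarith [one_le_toReal (p := p) hp]
  have hm : AEStronglyMeasurable (fun n => ξ n) (Measure.count : Measure ℤ) :=
    (measurable_of_countable _).aestronglyMeasurable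
  rw [← integrable_norm_rpow_iff hm (p_ne_zero p) hp, integrable_count_iff]
  have := (lp.memℓp ξ).summable hq
  refine this.congr fun n => ?_
  rw [Real.norm_of_nonneg (Real.rpow_nonneg (norm_nonneg _) _)]

theorem memlp_of_Lp (hp : p ≠ ∞) (f : Lp ℂ p (Measure.count : Measure ℤ)) :
    Memℓp (fun n => f n) p := by
  have hq : 0 < p.toReal := by linarith [one_le_toReal (p := p) hp]
  rw [memℓp_gen_iff hq]
  have := Lp_integrable hp f
  rw [integrable_count_iff] at this
  refine this.congr fun n => ?_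
  rw [Real.norm_of_nonneg (Real.rpow_nonneg (norm_nonneg _) _)]

theorem ae_count {P : ℤ → Prop} (hP : ∀ᵐ n ∂(Measure.count : Measure ℤ), P n) (n : ℤ) : P n := by
  by_contra h
  rw [ae_iff] at hP
  have h1 : (Measure.count : Measure ℤ) {n} ≤ 0 := by
    rw [← hP]
    exact measure_mono (by simpa using h)
  simp at h1

theorem norm_toLp_count (hp : p ≠ ∞) (ξ : lp (fun _ : ℤ => ℂ) p) :
    ‖(memLp_count hp ξ).toLp _‖ = ‖ξ‖ := by
  have hq : 0 < p.toReal := by linarith [one_le_toReal (p := p) hp]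
  have e1 : ‖(memLp_count hp ξ).toLp _‖ ^ p.toReal = ‖ξ‖ ^ p.toReal := by
    rw [norm_rpow_eq hp, lp.norm_rpow_eq_tsum hq, integral_countable (Lp_integrable hp _)]
    refine tsum_congr fun n => ?_
    have h1 : (Measure.count : Measure ℤ).real {n} = 1 := by
      simp [Measure.real]
    rw [h1, one_smul]
    have h2 := ae_count (memLp_count hp ξ).coeFn_toLp n
    rw [h2]
  exact (Real.rpow_left_inj (norm_nonneg _) (norm_nonneg _) hq.ne').1 e1

/-- `ℓ^p(ℤ)` is `L^p` of the counting measure. -/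
noncomputable def countEquiv (hp : p ≠ ∞) :
    lp (fun _ : ℤ => ℂ) p ≃ₗᵢ[ℂ] Lp ℂ p (Measure.count : Measure ℤ) where
  toFun ξ := (memLp_count hp ξ).toLp _
  invFun f := ⟨fun n => f n, memlp_of_Lp hp f⟩
  left_inv ξ := by
    ext n
    exact ae_count (memLp_count hp ξ).coeFn_toLp n
  right_inv f := by
    exact Lp.toLp_coeFn f (Lp.memLp f)
  map_add' ξ η := by
    refine Lp.ext ?_
    refine Filter.Eventually.of_forall fun n => ?_
    have h1 := ae_count (memLp_count hp (ξ + η)).coeFn_toLp n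
    have h2 := ae_count (memLp_count hp ξ).coeFn_toLp n
    have h3 := ae_count (memLp_count hp η).coeFn_toLp n
    have h4 := ae_count (Lp.coeFn_add ((memLp_count hp ξ).toLp _)
      ((memLp_count hp η).toLp _)) n
    rw [h1, h4, Pi.add_apply, h2, h3]
    rfl
  map_smul' c ξ := by
    refine Lp.ext ?_
    refine Filter.Eventually.of_forall fun n => ?_
    have h1 := ae_count (memLp_count hp (c • ξ)).coeFn_toLp n
    have h2 := ae_count (memLp_count hp ξ).coeFn_toLp n
    have h4 := ae_count (Lp.coeFn_smul c ((memLp_count hp ξ).toLp _)) n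
    rw [h1, RingHom.id_apply, h4, Pi.smul_apply, h2]
    rfl
  norm_map' ξ := norm_toLp_count hp ξ

variable {X : Type*} [TopologicalSpace X] [CompactSpace X] {h : X ≃ₜ X}

theorem orep_le_full (hp : p ≠ ∞) (y : X) (a : Cc X h) :
    ‖(orep h p y).integ a‖ ≤ fullNorm h p a :=
  (CovRep.norm_transport _ (countEquiv hp) a).trans (le_fullNorm' h p Measure.count _ a)

end Count

section Dirac

variable {X : Type*} [TopologicalSpace X] [CompactSpace X] {h : X ≃ₜ X}

theorem exists_unit (p : ℝ≥0∞) [Fact (1 ≤ p)] :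
    ∃ e : Lp ℂ p (Measure.dirac () : Measure Unit), ‖e‖ = 1 := by
  have hm : MemLp (fun _ : Unit => (1 : ℂ)) p (Measure.dirac ()) := memLp_const 1
  refine ⟨hm.toLp _, ?_⟩
  rw [Lp.norm_toLp, eLpNorm_const _ (p_ne_zero p) (IsProbabilityMeasure.ne_zero _)]
  simp

/-- The isometric embedding of `ℓ^p(ℤ)` in `ℓ^p(ℤ; E)` given by a unit vector. -/
noncomputable def embU {E : Type*} [NormedAddCommGroup E] [NormedSpace ℂ E] (p : ℝ≥0∞)
    [Fact (1 ≤ p)] (e : E) (he : ‖e‖ = 1) :
    lp (fun _ : ℤ => ℂ) p →ₗᵢ[ℂ] lp (fun _ : ℤ => E) p where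
  toFun ξ := ⟨fun n => ξ n • e, Memℓp.mono' (lp.memℓp ξ) fun n => by rw [norm_smul, he, mul_one]⟩
  map_add' ξ η := by
    ext n
    change ((ξ + η : lp (fun _ : ℤ => ℂ) p) n) • e = ξ n • e + η n • e
    rw [lp.coeFn_add, Pi.add_apply, add_smul]
  map_smul' c ξ := by
    ext n
    change ((c • ξ : lp (fun _ : ℤ => ℂ) p) n) • e = c • (ξ n • e)
    rw [lp.coeFn_smul, Pi.smul_apply, smul_smul, smul_eq_mul]
  norm_map' ξ := by
    apply le_antisymm
    · exact lp.norm_mono (p_ne_zero p) fun n => by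
        change ‖ξ n • e‖ ≤ _
        rw [norm_smul, he, mul_one]
    · exact lp.norm_mono (p_ne_zero p) fun n => by
        change _ ≤ ‖ξ n • e‖
        rw [norm_smul, he, mul_one]

theorem orep_le_red (y : X) (a : Cc X h) :
    ‖(orep h p y).integ a‖ ≤ redNorm h p a := by
  obtain ⟨e, he⟩ := exists_unit p
  refine (norm_integ_le_of_inter (orep h p y) (regular h p (scal y _) (norm_scal_le y _))
    (embU p e he) ?_ ?_ a).trans (le_redNorm' h p (Measure.dirac ()) (scal y _) _ a)
  · intro f ξ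
    ext1
    funext n
    unfold orep
    rw [regular_pi_apply, scal_apply]
    change ((regular h p (scal y ℂ) (norm_scal_le y ℂ)).π f ξ) n • e = _ • (ξ n • e)
    rw [regular_pi_apply, scal_apply, smul_smul, smul_eq_mul]
  · intro ξ
    ext1
    funext n
    rfl

end Dirac

end Pool.Agent.H74R4
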