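import Pool.Agent.H74R4.Tgt2

/-!
# Idempotents killed by all orbit representations are zero
-/

open MeasureTheory Filter Topology
open scoped ENNReal

namespace Pool.Agent.H74R4

section QQ

/-- The polynomial `3x² - 2x³`. -/
def qq {R : Type*} [Ring R] (x : R) : R := 3 • (x * x) - 2 • (x * x * x)

theorem map_qq {R S : Type*} [Ring R] [Ring S] (f : R →+* S) (x : R) : f (qq x) = qq (f x) := by
  simp only [qq, map_sub, map_nsmul, map_mul]

theorem qq_sub {R : Type*} [Ring R] (x : R) :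
    qq x - x = (x * x - x) - 2 • ((x * x - x) * x) := by
  unfold qq
  noncomm_ring

theorem qq_idem {R : Type*} [Ring R] (x : R) :
    qq x * qq x - qq x = 4 • ((x * x - x) * (x * x - x) * (x * x - x))
      - 3 • ((x * x - x) * (x * x - x)) := by
  unfold qq
  noncomm_ring

theorem norm_qq_le {R : Type*} [NormedRing R] (x : R) {t : ℝ} (ht : ‖x‖ ≤ t) (ht1 : t ≤ 1) :
    ‖qq x‖ ≤ 5 * t ^ 2 := by
  have h0 : 0 ≤ ‖x‖ := norm_nonneg x
  have e1 : ‖x * x‖ ≤ t ^ 2 := (norm_mul_le _ _).trans (by nlinarith)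
  have e2 : ‖x * x * x‖ ≤ t ^ 2 := by
    refine (norm_mul_le _ _).trans ?_
    have h1 : 0 ≤ ‖x * x‖ := norm_nonneg _
    nlinarith [sq_nonneg t]
  have e3 : ‖3 • (x * x)‖ ≤ 3 * ‖x * x‖ := by
    have := norm_nsmul_le (n := 3) (a := x * x)
    simpa using this
  have e4 : ‖2 • (x * x * x)‖ ≤ 2 * ‖x * x * x‖ := by
    have := norm_nsmul_le (n := 2) (a := x * x * x)
    simpa using this
  calc ‖qq x‖ ≤ ‖3 • (x * x)‖ + ‖2 • (x * x * x)‖ := norm_sub_le _ _
    _ ≤ 5 * t ^ 2 := by linarith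

theorem norm_qq_sub_le {R : Type*} [NormedRing R] (x : R) :
    ‖qq x - x‖ ≤ ‖x * x - x‖ * (1 + 2 * ‖x‖) := by
  rw [qq_sub]
  have e4 : ‖2 • ((x * x - x) * x)‖ ≤ 2 * ‖(x * x - x) * x‖ := by
    have := norm_nsmul_le (n := 2) (a := (x * x - x) * x)
    simpa using this
  have e5 : ‖(x * x - x) * x‖ ≤ ‖x * x - x‖ * ‖x‖ := norm_mul_le _ _
  calc _ ≤ ‖x * x - x‖ + ‖2 • ((x * x - x) * x)‖ := norm_sub_le _ _
    _ ≤ _ := by linarith

theorem norm_qq_idem_le {R : Type*} [NormedRing R] (x : R) {t : ℝ} (ht : ‖x * x - x‖ ≤ t)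
    (ht1 : t ≤ 1 / 14) : ‖qq x * qq x - qq x‖ ≤ t / 2 := by
  rw [qq_idem]
  set u := x * x - x with hu
  have h0 : 0 ≤ ‖u‖ := norm_nonneg u
  have e1 : ‖u * u‖ ≤ t ^ 2 := (norm_mul_le _ _).trans (by nlinarith)
  have e2 : ‖u * u * u‖ ≤ t ^ 2 := by
    refine (norm_mul_le _ _).trans ?_
    have h1 : 0 ≤ ‖u * u‖ := norm_nonneg _
    nlinarith [sq_nonneg t]
  have e3 : ‖4 • (u * u * u)‖ ≤ 4 * ‖u * u * u‖ := by
    have := norm_nsmul_le (n := 4) (a := u * u * u)
    simpa using this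
  have e4 : ‖3 • (u * u)‖ ≤ 3 * ‖u * u‖ := by
    have := norm_nsmul_le (n := 3) (a := u * u)
    simpa using this
  calc _ ≤ ‖4 • (u * u * u)‖ + ‖3 • (u * u)‖ := norm_sub_le _ _
    _ ≤ 7 * t ^ 2 := by linarith
    _ ≤ t / 2 := by nlinarith

/-- Control of the iteration. -/
theorem qq_iter {R : Type*} [NormedRing R] (x : ℕ → R) (hx : ∀ j, x (j + 1) = qq (x j))
    {δ M : ℝ} (hδ : ‖x 0 * x 0 - x 0‖ ≤ δ) (hδ1 : δ ≤ 1 / 14)
    (hM : ‖x 0‖ + 2 * δ * (1 + 2 * M) ≤ M) (j : ℕ) :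
    ‖x j * x j - x j‖ ≤ δ / 2 ^ j ∧ ‖x j - x 0‖ ≤ 2 * δ * (1 + 2 * M) * (1 - 1 / 2 ^ j) := by
  have hδ0 : 0 ≤ δ := (norm_nonneg _).trans hδ
  have hM0 : 0 ≤ 1 + 2 * M := by
    by_contra hneg
    push Not at hneg
    have h1 := norm_nonneg (x 0)
    nlinarith
  induction j with
  | zero => simp [hδ]
  | succ j ih =>
    obtain ⟨ih1, ih2⟩ := ih
    have hp : (1 : ℝ) ≤ 2 ^ j := one_le_pow₀ (by norm_num)
    have hp0 : (0 : ℝ) < 2 ^ j := by positivity
    have hd : δ / 2 ^ j ≤ δ := div_le_self hδ0 hp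
    constructor
    · rw [hx j]
      refine (norm_qq_idem_le (x j) ih1 (hd.trans hδ1)).trans (le_of_eq ?_)
      rw [pow_succ]; field_simp
    · have hxj : ‖x j‖ ≤ M := by
        have h1 : ‖x j‖ ≤ ‖x 0‖ + ‖x j - x 0‖ := by
          have := norm_add_le (x 0) (x j - x 0)
          simpa using this
        have h2 : 2 * δ * (1 + 2 * M) * (1 - 1 / 2 ^ j) ≤ 2 * δ * (1 + 2 * M) := by
          have h3 : (0 : ℝ) ≤ 1 / 2 ^ j := by positivity
          have h4 : 0 ≤ 2 * δ * (1 + 2 * M) := by positivity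
          nlinarith
        linarith
      have h5 : ‖x (j + 1) - x j‖ ≤ δ / 2 ^ j * (1 + 2 * M) := by
        rw [hx j]
        refine (norm_qq_sub_le (x j)).trans ?_
        gcongr
      have h6 : ‖x (j + 1) - x 0‖ ≤ ‖x (j + 1) - x j‖ + ‖x j - x 0‖ := by
        have := norm_add_le (x (j + 1) - x j) (x j - x 0)
        simpa using this
      refine h6.trans ((add_le_add h5 ih2).trans (le_of_eq ?_))
      rw [pow_succ]; field_simp; ring

end QQ

section Supp

variable {X : Type*} [TopologicalSpace X] {h : X ≃ₜ X}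

/-- Propagation at most `K`. -/
def Supp (a : Cc X h) (K : ℕ) : Prop := ∀ n : ℤ, K < n.natAbs → a.coeff n = 0

theorem Supp.mono {a : Cc X h} {K L : ℕ} (ha : Supp a K) (hKL : K ≤ L) : Supp a L :=
  fun n hn => ha n (lt_of_le_of_lt hKL hn)

theorem Supp.nsmul {a : Cc X h} {K : ℕ} (ha : Supp a K) (m : ℕ) : Supp (m • a) K := by
  intro n hn
  induction m with
  | zero => rw [zero_nsmul]; rfl
  | succ m ih =>
    rw [succ_nsmul]
    change (m • a).coeff n + a.coeff n = 0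
    rw [ih, ha n hn, add_zero]

theorem Supp.sub {a b : Cc X h} {K : ℕ} (ha : Supp a K) (hb : Supp b K) : Supp (a - b) K := by
  intro n hn
  change ((a.toF - b.toF : ℤ →₀ C(X, ℂ))) n = 0
  have h1 : a.toF n = 0 := ha n hn
  have h2 : b.toF n = 0 := hb n hn
  rw [Finsupp.sub_apply, h1, h2, sub_zero]

theorem Supp.mul {a b : Cc X h} {K L : ℕ} (ha : Supp a K) (hb : Supp b L) :
    Supp (a * b) (K + L) := by
  intro n hn
  rw [Cc.mul_coeff]
  refine Finset.sum_eq_zero fun k hk => ?_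
  by_cases hkK : K < k.natAbs
  · have : a.toF k = 0 := ha k hkK
    simp only [this, zero_mul]
  · have : b.coeff (n - k) = 0 := hb _ (by omega)
    simp only [this, act_zero, mul_zero]

theorem Supp.qq {a : Cc X h} {K : ℕ} (ha : Supp a K) : Supp (qq a) (3 * K) := by
  have h2 : Supp (a * a) (K + K) := ha.mul ha
  have h3 : Supp (a * a * a) (K + K + K) := h2.mul ha
  exact ((h2.nsmul 3).mono (by omega)).sub ((h3.nsmul 2).mono (by omega))

theorem exists_supp (a : Cc X h) : ∃ K : ℕ, Supp a K := by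
  refine ⟨a.toF.support.sup Int.natAbs, fun n hn => ?_⟩
  by_contra hne
  have : n ∈ a.toF.support := Finsupp.mem_support_iff.2 hne
  exact absurd (Finset.le_sup (f := Int.natAbs) this) (not_le.2 hn)

theorem sum_norm_le [CompactSpace X] {a : Cc X h} {K : ℕ} (ha : Supp a K) {t : ℝ}
    (hat : ∀ n, ‖a.coeff n‖ ≤ t) : (a.toF.sum fun _ f => ‖f‖) ≤ (2 * K + 1) * t := by
  have h1 : a.toF.support ⊆ Finset.Icc (-(K : ℤ)) K := by
    intro n hn
    rw [Finsupp.mem_support_iff] at hn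
    by_contra hne
    apply hn
    apply ha n
    rw [Finset.mem_Icc] at hne
    omega
  calc (a.toF.sum fun _ f => ‖f‖) = ∑ n ∈ a.toF.support, ‖a.toF n‖ := rfl
    _ ≤ ∑ n ∈ Finset.Icc (-(K : ℤ)) K, ‖a.toF n‖ :=
        Finset.sum_le_sum_of_subset_of_nonneg h1 fun _ _ _ => norm_nonneg _
    _ ≤ ∑ n ∈ Finset.Icc (-(K : ℤ)) K, t := Finset.sum_le_sum fun n _ => hat n
    _ = (2 * K + 1) * t := by
        rw [Finset.sum_const, nsmul_eq_mul, Int.card_Icc]
        congr 1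
        have : ((K : ℤ) + 1 - -(K : ℤ)).toNat = 2 * K + 1 := by omega
        rw [this]; push_cast; ring

end Supp

section Idem

theorem three_mul_le (j : ℕ) : 3 * j ≤ 2 ^ j + 2 := by
  induction j with
  | zero => norm_num
  | succ j ih =>
    rcases Nat.lt_or_ge j 2 with hj | hj
    · interval_cases j <;> norm_num
    · have : 2 ^ 2 ≤ 2 ^ j := Nat.pow_le_pow_right (by norm_num) hj
      rw [pow_succ]; omega

theorem decay (K : ℕ) : Tendsto (fun j : ℕ => (2 * ((3 ^ j * K : ℕ) : ℝ) + 1) * (1 / 2) ^ (2 ^ j))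
    atTop (𝓝 0) := by
  have h1 : Tendsto (fun j : ℕ => 4 * (2 * (K : ℝ) + 1) * (3 / 8 : ℝ) ^ j) atTop (𝓝 0) := by
    have := (tendsto_pow_atTop_nhds_zero_of_lt_one (show (0 : ℝ) ≤ 3 / 8 by norm_num)
      (by norm_num)).const_mul (4 * (2 * (K : ℝ) + 1))
    simpa using this
  refine squeeze_zero (fun j => by positivity) (fun j => ?_) h1
  have h2 : ((1 : ℝ) / 2) ^ (2 ^ j) ≤ 4 * (1 / 8) ^ j := by
    have h3 : ((1 : ℝ) / 2) ^ (2 ^ j + 2) ≤ (1 / 2) ^ (3 * j) :=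
      pow_le_pow_of_le_one (by norm_num) (by norm_num) (three_mul_le j)
    rw [pow_add, pow_mul] at h3
    norm_num at h3 ⊢
    linarith
  have h4 : (2 * ((3 ^ j * K : ℕ) : ℝ) + 1) ≤ (2 * (K : ℝ) + 1) * 3 ^ j := by
    push_cast
    have : (1 : ℝ) ≤ 3 ^ j := one_le_pow₀ (by norm_num)
    nlinarith
  calc _ ≤ (2 * (K : ℝ) + 1) * 3 ^ j * (4 * (1 / 8) ^ j) := by gcongr
    _ = 4 * (2 * (K : ℝ) + 1) * (3 ^ j * (1 / 8) ^ j) := by ring
    _ = _ := by rw [← mul_pow]; norm_num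

variable {X : Type*} [TopologicalSpace X] [CompactSpace X] {h : X ≃ₜ X} {p : ℝ≥0∞}
  [Fact (1 ≤ p)]

theorem coeff_norm_le {a : Cc X h} {t : ℝ} (ht : 0 ≤ t)
    (ha : ∀ y, ‖(orep h p y).integ a‖ ≤ t) (n : ℤ) : ‖a.coeff n‖ ≤ t := by
  rw [ContinuousMap.norm_le _ ht]
  intro x
  have h1 := coeff_le (p := p) ((h ^ (-n) : X ≃ₜ X) x) a n
  have h2 : (h ^ n : X ≃ₜ X) ((h ^ (-n) : X ≃ₜ X) x) = x := by
    change (h ^ n * h ^ (-n) : X ≃ₜ X) x = x
    rw [← zpow_add]; simp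
  rw [h2] at h1
  exact h1.trans (ha _)

/-- The integrated form as a ring homomorphism. -/
noncomputable def CovRep.integR {E : Type*} [NormedAddCommGroup E] [NormedSpace ℂ E]
    (r : CovRep X h E) : Cc X h →+* (E →L[ℂ] E) where
  toFun := r.integ
  map_one' := r.integ_one
  map_mul' := r.integ_mul
  map_zero' := r.integ_zero
  map_add' := r.integ_add

theorem idem_zero {B : Type*} [NormedRing B] (ι : Cc X h →+* B) (hι : DenseRange ι)
    (hN : ∀ a : Cc X h, ‖ι a‖ ≤ a.toF.sum fun _ f => ‖f‖)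
    (σ : X → B →+* (lp (fun _ : ℤ => ℂ) p →L[ℂ] lp (fun _ : ℤ => ℂ) p))
    (hσ : ∀ y a, σ y (ι a) = (orep h p y).integ a) (hσc : ∀ y b, ‖σ y b‖ ≤ ‖b‖)
    (e : B) (he : e * e = e) (h0 : ∀ y, σ y e = 0) : e = 0 := by
  by_contra hne
  set m := ‖e‖ with hm
  have hm0 : 0 < m := norm_pos_iff.2 hne
  set W : ℝ := 1 + 14 * (2 * m + 2) + (1 + 2 * (2 * m + 2) * (2 * m + 5)) with hW
  have hW0 : 0 < W := by positivity
  set d : ℝ := min 1 m / (10 * W) with hd
  have hd0 : 0 < d := by positivity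
  have hmin1 : min 1 m ≤ 1 := min_le_left _ _
  have hmin2 : min 1 m ≤ m := min_le_right _ _
  have hdW : d * W = min 1 m / 10 := by rw [hd]; field_simp
  have hdW1 : d * W ≤ 1 / 10 := by rw [hdW]; linarith
  have hdWm : d * W < m := by rw [hdW]; linarith
  have hd1 : d ≤ 1 / 10 := by nlinarith
  have hd2 : d * (14 * (2 * m + 2)) ≤ d * W := by
    apply mul_le_mul_of_nonneg_left _ hd0.le
    rw [hW]; nlinarith
  have hd3 : d * (1 + 2 * (2 * m + 2) * (2 * m + 5)) ≤ d * W := by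
    apply mul_le_mul_of_nonneg_left _ hd0.le
    rw [hW]; nlinarith
  obtain ⟨x0, hx0⟩ : ∃ x0 : Cc X h, ‖ι x0 - e‖ < d := by
    obtain ⟨x0, hx0⟩ := Metric.denseRange_iff.1 hι e d hd0
    exact ⟨x0, by rwa [dist_comm, dist_eq_norm] at hx0⟩
  set x : ℕ → Cc X h := fun j => qq^[j] x0 with hx
  have hxs : ∀ j, x (j + 1) = qq (x j) := fun j => by
    simp only [hx]
    rw [Function.iterate_succ_apply']
  obtain ⟨K, hK⟩ := exists_supp x0
  have hsupp : ∀ j, Supp (x j) (3 ^ j * K) := by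
    intro j
    induction j with
    | zero => simpa [hx] using hK
    | succ j ih =>
      rw [hxs j]
      have := ih.qq
      rw [pow_succ, mul_comm (3 ^ j) 3, mul_assoc]
      exact this
  have hsmall : ∀ j y, ‖(orep h p y).integ (x j)‖ ≤ (1 / 2) ^ (2 ^ j) ∧
      5 * ‖(orep h p y).integ (x j)‖ ≤ (1 / 2) ^ (2 ^ j) := by
    intro j y
    have key : 5 * ‖(orep h p y).integ (x j)‖ ≤ (1 / 2) ^ (2 ^ j) := by
      induction j with
      | zero =>
        have h1 : ‖(orep h p y).integ x0‖ ≤ d := by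
          rw [← hσ y x0]
          have : σ y (ι x0) = σ y (ι x0 - e) := by rw [map_sub, h0 y, sub_zero]
          rw [this]
          exact (hσc _ _).trans hx0.le
        simp only [hx, Function.iterate_zero, id_eq, pow_zero, pow_one]
        linarith
      | succ j ih =>
        have hle1 : ((1 : ℝ) / 2) ^ (2 ^ j) ≤ 1 := pow_le_one₀ (by norm_num) (by norm_num)
        have h1 : (orep h p y).integ (x (j + 1)) = qq ((orep h p y).integ (x j)) := by
          rw [hxs j]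
          exact map_qq (orep h p y).integR (x j)
        have h2 := norm_qq_le ((orep h p y).integ (x j)) le_rfl
          (by linarith [norm_nonneg ((orep h p y).integ (x j))])
        rw [h1]
        have h3 : ((1 : ℝ) / 2) ^ (2 ^ (j + 1)) = ((1 / 2) ^ (2 ^ j)) ^ 2 := by
          rw [← pow_mul, pow_succ 2 j]
        rw [h3]
        have h4 : 0 ≤ ‖(orep h p y).integ (x j)‖ := norm_nonneg _
        nlinarith
    exact ⟨by linarith [norm_nonneg ((orep h p y).integ (x j))], key⟩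
  have hN2 : ∀ j, ‖ι (x j)‖ ≤ (2 * ((3 ^ j * K : ℕ) : ℝ) + 1) * (1 / 2) ^ (2 ^ j) := by
    intro j
    refine (hN _).trans (sum_norm_le (hsupp j) fun n => ?_)
    exact coeff_norm_le (p := p) (by positivity) (fun y => (hsmall j y).1) n
  -- the iteration in B
  have hX0 : ‖ι x0‖ ≤ m + d := by
    have := norm_add_le e (ι x0 - e)
    have h1 : e + (ι x0 - e) = ι x0 := by abel
    rw [h1] at this
    linarith
  have hd10 : d ≤ 1 := by linarith
  have hδ : ‖ι x0 * ι x0 - ι x0‖ ≤ d * (2 * m + 2) := by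
    have h1 : ι x0 * ι x0 - ι x0 = (ι x0 - e) * ι x0 + e * (ι x0 - e) - (ι x0 - e) := by
      have : e * (ι x0 - e) = e * ι x0 - e := by rw [mul_sub, he]
      rw [this, sub_mul]; abel
    rw [h1]
    calc _ ≤ ‖(ι x0 - e) * ι x0‖ + ‖e * (ι x0 - e)‖ + ‖ι x0 - e‖ :=
          (norm_sub_le _ _).trans (add_le_add (norm_add_le _ _) le_rfl)
      _ ≤ d * (m + 1) + m * d + d := by
          gcongr
          · refine (norm_mul_le _ _).trans ?_
            gcongr
            linarith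
          · exact (norm_mul_le _ _).trans (by gcongr)
      _ = _ := by ring
  have hδ1 : d * (2 * m + 2) ≤ 1 / 14 := by linarith
  have hMM : ‖ι (x 0)‖ + 2 * (d * (2 * m + 2)) * (1 + 2 * (m + 2)) ≤ m + 2 := by
    have : x 0 = x0 := rfl
    rw [this]
    nlinarith
  have hiter := qq_iter (fun j => ι (x j)) (fun j => by
    rw [hxs j]; exact map_qq ι (x j)) (δ := d * (2 * m + 2)) (M := m + 2) hδ hδ1 hMM
  have hlim : ‖ι x0‖ ≤ 2 * (d * (2 * m + 2)) * (1 + 2 * (m + 2)) := by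
    have h1 : ∀ j, ‖ι x0‖ ≤ 2 * (d * (2 * m + 2)) * (1 + 2 * (m + 2))
        + (2 * ((3 ^ j * K : ℕ) : ℝ) + 1) * (1 / 2) ^ (2 ^ j) := by
      intro j
      have h2 := (hiter j).2
      have h3 : ‖ι x0‖ ≤ ‖ι (x j) - ι (x 0)‖ + ‖ι (x j)‖ := by
        have := norm_sub_le (ι (x j)) (ι (x j) - ι (x 0))
        rw [sub_sub_cancel] at this
        calc ‖ι x0‖ = ‖ι (x 0)‖ := rfl
          _ ≤ _ := by linarith
      have h4 : 2 * (d * (2 * m + 2)) * (1 + 2 * (m + 2)) * (1 - 1 / 2 ^ j)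
          ≤ 2 * (d * (2 * m + 2)) * (1 + 2 * (m + 2)) := by
        have h5 : (0 : ℝ) ≤ 1 / 2 ^ j := by positivity
        have h6 : 0 ≤ 2 * (d * (2 * m + 2)) * (1 + 2 * (m + 2)) := by positivity
        nlinarith
      have h7 := hN2 j
      linarith
    have h8 : Tendsto (fun j : ℕ => 2 * (d * (2 * m + 2)) * (1 + 2 * (m + 2))
        + (2 * ((3 ^ j * K : ℕ) : ℝ) + 1) * (1 / 2) ^ (2 ^ j)) atTop
        (𝓝 (2 * (d * (2 * m + 2)) * (1 + 2 * (m + 2)) + 0)) := (decay K).const_add _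
    rw [add_zero] at h8
    exact ge_of_tendsto' h8 h1
  have hfin : m ≤ ‖ι x0‖ + d := by
    have := norm_sub_le (ι x0) (ι x0 - e)
    rw [sub_sub_cancel] at this
    linarith
  have : m ≤ d * (1 + 2 * (2 * m + 2) * (2 * m + 5)) := by
    nlinarith
  linarith

end Idem

end Pool.Agent.H74R4
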